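import Pool.Agent.Lib.MP_d6ddbd_nt.GQ.Fin
import Pool.Agent.Lib.MP_d6ddbd_nt.KA.Defs

/-!
The excluded twists have density zero.
-/

set_option autoImplicit false

open Finset Filter Topology NumberField
open Pool.Agent.Stark Pool.Agent.Stark.LocAux
open Pool.Agent.Lib.MP_d6ddbd_nt.K11 Pool.Agent.Lib.MP_d6ddbd_nt.K11.Eleven
open scoped Classical

namespace Pool.Agent.Lib.MP_d6ddbd_nt.GQ

namespace Blk

variable {k : Type*} [Field k] {w : Valuation k (WithZero (Multiplicative ℤ))} {p : ℕ}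

theorem dvd_of (hp : p.Prime) (m : (p : k) ∈ pw w 1) {n : ℤ} (h : (n : k) ∈ pw w 1) :
    (p : ℤ) ∣ n := by
  by_contra e
  obtain ⟨a, b, hab⟩ := (Nat.prime_iff_prime_int.1 hp).irreducible.coprime_iff_not_dvd.2 e
  have : (1 : k) = (a : k) * p + b * n := by exact_mod_cast congrArg (Int.cast (R := k)) hab.symm
  exact one_not_mem (this ▸ add_mem (pw_mul (int_mem a) m le_rfl) (pw_mul (int_mem b) h le_rfl))

theorem loc (L : IsLoc w) (hp : p.Prime) (m : (p : k) ∈ pw w 1) (o : ord w (2 : k) = 0) {θ : k}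
    (e : fc θ = 0) {x : ℤ} (hx : (x : k) - θ ∈ pw w 1) (u0 : 11 * fd θ ≠ 0)
    (u : ord w (11 * fd θ) = 0) (h : ∀ x : ZMod p, fc x = 0 → IsSquare (11 * fd x)) :
    IsSquare (11 * fd θ) := by
  have t0 : θ ∈ pw w 0 := by
    simpa using sub_mem (int_mem (w := w) x) (anti zero_le_one hx)
  have x0 := int_mem (w := w) x
  have a : ((fc x : ℤ) : k) ∈ pw w 1 := by
    rw [show ((fc x : ℤ) : k) = (x - θ) * (x * x + x * θ + θ * θ - (4 : ℤ) * (x + θ) - (160 : ℤ)) by
      unfold fc at e ⊢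
      push_cast
      linear_combination e]
    exact pw_mul hx (sub_mem (sub_mem (add_mem (add_mem (pw_mul x0 x0 le_rfl) (pw_mul x0 t0 le_rfl))
      (pw_mul t0 t0 le_rfl)) (pw_mul (int_mem _) (add_mem x0 t0) le_rfl)) (int_mem _)) le_rfl
  obtain ⟨y, hy⟩ := h x (by
    have := (ZMod.intCast_zmod_eq_zero_iff_dvd _ p).2 (dvd_of hp m a)
    simpa [fc] using this)
  obtain ⟨y, rfl⟩ := ZMod.intCast_surjective y
  obtain ⟨c, hc⟩ := (ZMod.intCast_zmod_eq_zero_iff_dvd (y * y - 11 * fd x) p).1 (by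
    unfold fd at hy ⊢
    push_cast
    linear_combination -hy)
  have b : (y : k) * y - 11 * fd θ ∈ pw w 1 := by
    have hc' : (y : k) * y - 11 * fd (x : k) = p * c := by
      have := congrArg (Int.cast (R := k)) hc
      unfold fd at this ⊢
      push_cast at this
      exact this
    rw [show (y : k) * y - 11 * fd θ = p * c + (x - θ) * ((33 : ℤ) * (x + θ) - (88 : ℤ)) by
      rw [← hc']
      unfold fd
      push_cast
      ring]
    exact add_mem (pw_mul m (int_mem c) le_rfl) (pw_mul hx (sub_mem (pw_mul (int_mem _)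
      (add_mem x0 t0) le_rfl) (int_mem _)) le_rfl)
  have c1 := add_high (w := w) u0 (y := (y : k) * y - 11 * fd θ) (by rwa [u])
  rw [add_sub_cancel] at c1
  obtain ⟨r, hr⟩ := hens L (x := y * y / (11 * fd θ)) (by
    rw [o, div_sub_one u0]
    exact pw_div b (by rw [u]; rfl))
  have r0 : r ≠ 0 := by
    rintro rfl
    exact div_ne_zero c1.1 u0 (by simpa using hr)
  refine ⟨y / r, ?_⟩
  rw [div_eq_iff u0] at hr
  field_simp
  linear_combination -hr

end Blk

/-- The excluded twists have density zero. -/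
theorem blk_den : Tendsto (fun X : ℝ => GO.cnt X KA.Blk / X) atTop (𝓝 0) := by
  obtain ⟨L, _, _, θ, hθ⟩ := Final.exists_cub
  obtain ⟨-, ⟨𝔭, 𝔮, -, hab, -, -, o1, -, t8, -⟩, p3, -, p5, p6, -⟩ := pr_thm L θ hθ
  have n11 : (11 : L) ≠ 0 := by norm_num
  have dv : ∀ l : ℕ, l.Prime → l ≠ 11 → ∀ 𝔯 ∈ ab L l, og 𝔯 (11 : L) = 0 := fun l hl e 𝔯 h =>
    by_contra fun n => e (K11.L.ch_eq pr_thm hθ hl (l' := 11) (by norm_num) h (mem_ab.2 (by simpa)))
  have f8 : emb 𝔭 (fd θ) ≠ 0 ∧ ord (wv 𝔭) (emb 𝔭 (fd θ)) = 0 := by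
    have m : (11 : Kc 𝔭) ∈ pw (wv 𝔭) 1 := mem_of_le (by rw [← o1, ← ord_emb, map_ofNat])
    have t : emb 𝔭 θ - 8 ∈ pw (wv 𝔭) 1 := by
      rw [show emb 𝔭 θ - 8 = emb 𝔭 (θ - 8) by rw [map_sub, map_ofNat]]
      exact mem_of_le (by rw [ord_emb]; omega)
    refine El.near1 m (n := -32) (by norm_num) ?_
    rw [show emb 𝔭 (fd θ) - ((-32 : ℤ) : Kc 𝔭) =
      (emb 𝔭 θ - 8) * ((3 : ℤ) * (emb 𝔭 θ - 8) + (40 : ℤ)) by
        simp only [fd, map_sub, map_mul, map_pow, map_ofNat]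
        push_cast
        ring]
    exact pw_mul t (add_mem (pw_mul (int_mem _) (anti zero_le_one t) le_rfl) (int_mem _)) le_rfl
  have f0 : fd θ ≠ 0 := fun e => f8.1 (by rw [e, map_zero])
  have a0 : 11 * fd θ ≠ 0 := mul_ne_zero n11 f0
  have og0 : ∀ l : ℕ, l.Prime → l ≠ 2 → l ≠ 11 → ∀ 𝔯 ∈ ab L l, og 𝔯 (11 * fd θ) = 0 :=
    fun l hl a b 𝔯 h => by
      rw [og, ord_mul n11 f0]
      exact (congrArg₂ _ (dv l hl b 𝔯 h) ((p3 l hl a b).1 𝔯 h).2.2.1).trans rfl
  have ns : ¬ IsSquare (11 * fd θ) := by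
    rintro ⟨s, hs⟩
    have s0 : s ≠ 0 := by
      rintro rfl
      exact a0 (by simpa using hs)
    have := congrArg (og 𝔭) hs
    rw [og, og, ord_mul n11 f0, ord_mul s0 s0] at this
    have e := f8.2
    rw [ord_emb] at e
    unfold og at e o1
    omega
  obtain ⟨C₂, x₀, h2⟩ := GO.ps_thm (GO.qd_thm GG.discAll) GO.rng_thm L θ hθ
  obtain ⟨-, -, δ, C, δ0, -, c0, h3⟩ := GO.ex_thm
  have key : ∀ x X : ℝ, 0 ≤ x → 1 ≤ X → x ≤ X ^ δ → GO.cnt X KA.Blk ≤ C * X * Real.exp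
      (-Pool.Agent.Lib.MP_9177b7_ag.B.tsumP (GO.ind {p | GO.Ns {2, 11} (11 * fd θ) p}) x) := fun x X x0 X1 hx => by
    rw [← GO.Small.sum_ind]
    refine le_trans ?_ (h3 X _ X1 fun q hq => ?_)
    · rw [GO.cnt, GO.cnt, Nat.cast_le]
      refine card_le_card fun d hd => ?_
      simp only [mem_filter] at hd ⊢
      refine ⟨hd.1, fun q hq e => ?_⟩
      replace hd := hd.2
      rw [GO.Small.mem_pz x0] at hq
      obtain ⟨⟨-, hq⟩, -, n2, n11, 𝔯, h, hn, h'⟩ := hq
      obtain ⟨q1, q2, -, q3, -⟩ := (p3 q hq n2 n11).1 𝔯 h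
      have := Blk.loc (isLoc_wv 𝔯) hq (θ := emb 𝔯 θ) (x := xr θ 𝔯)
        (mem_of_le (by rw [← q1, ← ord_emb, map_natCast])) (by rw [← q2, ← ord_emb, map_ofNat])
        (by simpa [fc, map_ofNat] using congrArg (emb 𝔯) hθ.eq) (by
          rw [← map_intCast (emb 𝔯), ← map_sub]
          exact mem_of_le (by rw [ord_emb]; exact q3.1 hn))
      have ee : 11 * fd (emb 𝔯 θ) = emb 𝔯 (11 * fd θ) := by simp [fd, map_ofNat]
      rw [ee] at this
      have g : LSq 𝔯 (11 * fd θ) := this ((map_ne_zero _).2 a0)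
        ((ord_emb _ _).trans (og0 q hq n2 n11 𝔯 h)) (hd.2.2 q hq e n11)
      rw [nsq, if_pos g] at h'
      exact zero_ne_one h'
    · rw [mem_filter, GO.Small.mem_pz x0] at hq
      exact ⟨hq.1.2, hq.1.1.trans hx⟩
  set P : ℝ := Real.log (3 * ∏ l ∈ ({2, 11} : Finset ℕ), (l : ℝ))
  have lim : Tendsto (fun X : ℝ => C * Real.exp
      (-(Real.log (Real.log (X ^ δ)) / 7 - 3 * Real.log P - C₂))) atTop (𝓝 0) := by
    rw [← mul_zero C]
    refine (Real.tendsto_exp_neg_atTop_nhds_zero.comp ?_).const_mul C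
    exact tendsto_atTop_add_const_right _ _ (tendsto_atTop_add_const_right _ _
      ((Real.tendsto_log_atTop.comp (Real.tendsto_log_atTop.comp
        (tendsto_rpow_atTop δ0))).atTop_div_const (by norm_num)))
  refine squeeze_zero' ?_ ?_ lim
  · filter_upwards [eventually_ge_atTop 0] with X hX
    exact div_nonneg (Nat.cast_nonneg _) hX
  filter_upwards [eventually_ge_atTop 1, (tendsto_rpow_atTop δ0).eventually_ge_atTop x₀,
    (Real.tendsto_log_atTop.comp (tendsto_rpow_atTop δ0)).eventually_ge_atTop (P ^ 2)]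
    with X X1 X2 X3
  have X0 : 0 < X := by linarith
  rw [div_le_iff₀ X0, mul_right_comm]
  refine (key _ X (by positivity) X1 le_rfl).trans (mul_le_mul_of_nonneg_left
    (Real.exp_le_exp.2 (neg_le_neg (h2 _ _ _ (by simp; norm_num) ⟨a0, fun l hl n 𝔯 h => ?_⟩ ns X2
      X3))) (by positivity))
  rw [og0 l hl (fun e => n (by simp [e])) (fun e => n (by simp [e])) 𝔯 h]
  exact Even.zero

/-- A property that follows from the bound outside the excluded twists fails for few squarefree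
integers. -/
theorem den_all {B : ℤ → Prop} (hB : ∀ d, Squarefree d → ¬ KA.Blk d → KI.Bd d → B d) :
    Tendsto (fun X : ℕ => (({d : ℤ | |d| ≤ X ∧ Squarefree d ∧ ¬ B d}.ncard : ℕ) : ℝ) / X) atTop
      (𝓝 0) := by
  have h := (oneAll.add blk_den).comp tendsto_natCast_atTop_atTop
  rw [add_zero] at h
  refine squeeze_zero (fun X => by positivity) (fun X => ?_) h
  rw [Function.comp, ← add_div]
  refine div_le_div_of_nonneg_right ?_ (Nat.cast_nonneg X)
  rw [GO.cnt, GO.cnt, ← Nat.cast_add, Nat.cast_le]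
  refine le_trans ?_ (card_union_le _ _)
  rw [← Set.ncard_coe_finset]
  refine Set.ncard_le_ncard (fun d ⟨a, b, f⟩ => ?_) (Finset.finite_toSet _)
  simp only [mem_coe, mem_union, mem_filter, mem_Icc, Int.floor_natCast]
  by_cases e : KA.Blk d
  · exact Or.inr ⟨abs_le.1 a, e⟩
  · exact Or.inl ⟨abs_le.1 a, b, fun g => f (hB d b e g)⟩

/-- The root number in terms of the residue modulo `11` and the sign. -/
theorem wA_iff {d : ℤ} (hd : d ≠ 0) : KA.wA d = -1 ↔ ¬ (jacobiSym d 11 = 1 ↔ 0 < d) := by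
  unfold KA.wA
  split_ifs with h
  · have : jacobiSym d 11 = 0 := by
      obtain ⟨e, rfl⟩ := h
      rw [jacobiSym.mul_left, show jacobiSym 11 11 = 0 by norm_num, zero_mul]
    rcases lt_or_gt_of_ne hd with s | s
    · simp [this, Int.sign_eq_neg_one_of_neg s, s.not_gt]
    · simp [this, Int.sign_eq_one_of_pos s, s]
  have j := jacobiSym.eq_one_or_neg_one (a := d) (b := 11) (by
    rw [Int.gcd_comm]
    exact (Nat.Prime.coprime_iff_not_dvd (p := 11) (by norm_num)).2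
      fun e => h (Int.natCast_dvd.2 e))
  rcases lt_or_gt_of_ne hd with s | s
  · rw [show (d.natAbs : ℤ) = -1 * d by omega, jacobiSym.mul_left,
      show jacobiSym (-1) 11 = -1 by norm_num]
    rcases j with j | j <;> simp [j, s.not_gt]
  · rw [show (d.natAbs : ℤ) = d by omega]
    rcases j with j | j <;> simp [j, s]

end Pool.Agent.Lib.MP_d6ddbd_nt.GQ
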