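import Pool.Agent.Lib.MP_d6ddbd_nt.K11.AllX

/-!
The local condition at `11` contains the kernel of a linear form, for every twist.
-/

set_option autoImplicit false

open NumberField IsDedekindDomain
open Pool.Agent.Stark Pool.Agent.Stark.LocAux
open Pool.Agent.Lib.MP_d6ddbd_nt.K11 Pool.Agent.Lib.MP_d6ddbd_nt.K11.Eleven

namespace Pool.Agent.Lib.MP_d6ddbd_nt.GQ

namespace El

variable {k : Type*} [Field k] {w : Valuation k (WithZero (Multiplicative ℤ))} {θ : k}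

theorem near1 (m : (11 : k) ∈ pw w 1) {a : k} {n : ℤ} (hn : ¬ (11 : ℤ) ∣ n) (h : a - n ∈ pw w 1) :
    a ≠ 0 ∧ ord w a = 0 := by
  have h1 := int_unit m hn
  have h2 := add_high (w := w) h1.1 (y := a - n) (by rwa [h1.2])
  rwa [add_sub_cancel, h1.2] at h2

theorem ram (L : IsLoc w) (o : ord w (11 : k) = 2) (e : fc θ = 0) (h9 : θ - 9 ∈ pw w 1) :
    IsSquare (-11 : k) ∧ ord w (-420 - θ) = 5 := by
  have m : (11 : k) ∈ pw w 1 := mem_of_le (by omega)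
  have n11 : (11 : k) ≠ 0 := fun z => by simp [z] at o
  obtain ⟨t, ht⟩ : ∃ t, t = -420 - θ := ⟨_, rfl⟩
  rw [← ht]
  have t1 : t ∈ pw w 1 := by
    rw [show t = -(θ - 9) - (39 : ℤ) * 11 by rw [ht]; push_cast; ring]
    exact sub_mem (neg_mem h9) (pw_mul (int_mem 39) m le_rfl)
  have q : (464 : ℤ) * 11 ^ 5 = t ^ 2 * (-1264 - t) - (400 : ℤ) * 11 ^ 3 * t := by
    rw [ht]
    unfold fc at e
    push_cast
    linear_combination -e
  have u := int_unit m (n := 464) (by norm_num)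
  have o10 : ord w ((464 : ℤ) * 11 ^ 5 : k) = 10 := by
    rw [ord_mul u.1 (pow_ne_zero _ n11), u.2, ord_pow, o]
    rfl
  have c3 : (11 : k) ^ 3 ∈ pw w 6 := mem_of_le (by rw [ord_pow, o]; rfl)
  have a1 : -1264 - t - (1 : ℤ) ∈ pw w 1 := by
    rw [show -1264 - t - ((1 : ℤ) : k) = -((115 : ℤ) * 11) - t by push_cast; ring]
    exact sub_mem (neg_mem (pw_mul (int_mem 115) m le_rfl)) t1
  have a0 := near1 m (by norm_num) a1
  have t6 : t ∉ pw w (5 + 1) := fun h => by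
    have : ((464 : ℤ) * 11 ^ 5 : k) ∈ pw w (10 + 1) := by
      rw [q, sq]
      exact sub_mem (pw_mul (pw_mul (l := 12) h h (by norm_num)) (mem_of_le a0.2.ge) (by norm_num))
        (pw_mul (pw_mul (l := 6) (int_mem 400) c3 le_rfl) h (by norm_num))
    exact (not_mem.2 ⟨mul_ne_zero u.1 (pow_ne_zero _ n11), by omega⟩) this
  obtain ⟨t0, t5⟩ := not_mem.1 t6
  have s1 : (400 : ℤ) * 11 ^ 3 / t ∈ pw w 1 :=
    pw_div (pw_mul (l := 6) (int_mem 400) c3 le_rfl) (by omega)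
  have b1 : -1264 - t - (400 : ℤ) * 11 ^ 3 / t - (1 : ℤ) ∈ pw w 1 := by
    rw [sub_right_comm]
    exact sub_mem a1 s1
  have q' : (464 : ℤ) * 11 ^ 5 = t ^ 2 * (-1264 - t - (400 : ℤ) * 11 ^ 3 / t) := by
    rw [q]
    field_simp
  generalize -1264 - t - (400 : ℤ) * 11 ^ 3 / t = A at b1 q'
  have b0 := near1 m (by norm_num) b1
  refine ⟨?_, ?_⟩
  · obtain ⟨r, hr⟩ := sq_of_cong L m (b := (-464 : ℤ) * A) (r := 3) (by norm_num) (by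
      rw [show ((-464 : ℤ) : k) * A - ((3 : ℤ) : k) ^ 2 =
        (-464 : ℤ) * (A - (1 : ℤ)) - (43 : ℤ) * 11 by push_cast; ring]
      exact sub_mem (pw_mul (int_mem _) b1 le_rfl) (pw_mul (int_mem 43) m le_rfl))
    refine ⟨r * t / ((464 : ℤ) * 11 ^ 2), ?_⟩
    have := u.1
    push_cast at *
    field_simp
    linear_combination t ^ 2 * hr - 464 * q'
  · rw [q', ord_mul (pow_ne_zero _ t0) b0.1, ord_pow, b0.2] at o10
    push_cast at o10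
    omega

theorem spl (L : IsLoc w) (o : ord w (11 : k) = 1) (e : fc θ = 0) (h8 : θ - 8 ∈ pw w 1) {m : ℤ}
    (hm : ¬ (11 : ℤ) ∣ m) : IsSquare ((11 * m) * (11 * m - 3 - θ)) := by
  have m1 : (11 : k) ∈ pw w 1 := mem_of_le o.ge
  have n11 : (11 : k) ≠ 0 := fun z => by simp [z] at o
  have a0 := near1 m1 (a := θ ^ 2 - 7 * θ - 139) (n := -131) (by norm_num) (by
    rw [show θ ^ 2 - 7 * θ - 139 - ((-131 : ℤ) : k) = (θ - 8) * ((θ - 8) + (9 : ℤ)) by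
      push_cast; ring]
    exact pw_mul h8 (add_mem (anti zero_le_one h8) (int_mem 9)) le_rfl)
  have u := int_unit m1 hm
  have a1 : (-3 - θ) / (11 * m) ∈ pw w 1 := by
    rw [show (-3 - θ) / (11 * m) = (-7 : ℤ) * 11 / ((θ ^ 2 - 7 * θ - 139) * m) by
      rw [div_eq_div_iff (mul_ne_zero n11 u.1) (mul_ne_zero a0.1 u.1)]
      unfold fc at e
      push_cast
      linear_combination -m * e]
    exact pw_div (pw_mul (l := 1) (int_mem _) m1 le_rfl) (by rw [ord_mul a0.1 u.1, a0.2, u.2]; rfl)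
  obtain ⟨r, hr⟩ := sq_of_cong L m1 (b := 1 + (-3 - θ) / (11 * m)) (r := 1) (by norm_num)
    (by simpa using a1)
  refine ⟨11 * m * r, ?_⟩
  have := u.1
  field_simp at hr
  linear_combination 11 * m * hr

theorem res (m : ℤ) : (∃ r : ℤ, (11 : ℤ) ∣ m - r ^ 2) ∨ ∀ t : ℤ, ¬ (11 : ℤ) ∣ m - t ^ 2 :=
  (em _).imp_right fun h t e => h ⟨t, e⟩

end El

open El LocD in
theorem el_thm {L : Type} [Field L] [NumberField L] {θ : L} (hθ : Cub θ) {d : ℤ}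
    (hd : Squarefree d) : ∃ f : L → ZMod 2, Asm.Ad f ∧ ∀ α : L, α ≠ 0 →
      IsSquare (Algebra.norm ℚ α) → f α = 0 → LocS θ d 11 α := by
  classical
  obtain ⟨-, ⟨𝔭, 𝔮, hne, hab, n1, n2, o1, o2, t8, t9⟩, -, hv, p5, p6, -⟩ := pr_thm L θ hθ
  have hs : ab L 11 = {𝔭, 𝔮} := Finset.ext fun 𝔯 => by simp [hab]
  have hm : ∀ 𝔯 : Pr L, ((11 : ℕ) : 𝓞 L) ∈ 𝔯.asIdeal ↔ 𝔯 = 𝔭 ∨ 𝔯 = 𝔮 := fun 𝔯 => by
    rw [← mem_ab' (by norm_num), hab]
  have par : ∀ α : L, α ≠ 0 → IsSquare (Algebra.norm ℚ α) → (Even (og 𝔭 α) ↔ Even (og 𝔮 α)) :=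
    fun α h0 hN => by
    have := (hv 11 α (by norm_num) h0).2 hN
    rw [hs, Finset.sum_pair hne, n1, n2, show Nat.log 11 11 = 1 by decide] at this
    simpa [Int.even_add] using this
  have ad : Asm.Ad (vv 𝔭) := fun x y a b => vv_mul a b
  have ev : ∀ α : L, α ≠ 0 → IsSquare (Algebra.norm ℚ α) → vv 𝔭 α = 0 →
      ∀ 𝔯 ∈ ab L 11, Even (og 𝔯 α) := fun α h0 hN h 𝔯 hr => by
    rcases (hab 𝔯).1 hr with rfl | rfl
    exacts [vv_zero.1 h, (par α h0 hN).1 (vv_zero.1 h)]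
  by_cases h11 : (11 : ℤ) ∣ d
  swap
  · exact ⟨_, ad, fun α h0 hN h => (eleven_thm pr_thm pfAll L θ hθ d α h11 h0 hN).2 (ev α h0 hN h)⟩
  obtain ⟨m, rfl⟩ := h11
  have m11 : ¬ (11 : ℤ) ∣ m := fun e => absurd (hd 11 (mul_dvd_mul_left _ e)) (by decide)
  have e11 : ∀ 𝔯 : Pr L, ord (wv 𝔯) (11 : Kc 𝔯) = og 𝔯 (11 : L) := fun 𝔯 => by
    rw [← ord_emb, map_ofNat]
  have m1 : (11 : Kc 𝔭) ∈ pw (wv 𝔭) 1 := mem_of_le (by rw [e11, o1])
  have m2 : (11 : Kc 𝔮) ∈ pw (wv 𝔮) 1 := mem_of_le (by rw [e11, o2]; norm_num)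
  have two : ∀ 𝔯 : Pr L, (11 : Kc 𝔯) ∈ pw (wv 𝔯) 1 → og 𝔯 (2 : L) = 0 := fun 𝔯 h => by
    rw [← ord_emb, map_ofNat]
    simpa using (int_unit h (n := 2) (by norm_num)).2
  have t : ∀ (𝔯 : Pr L) (c : L), 0 < og 𝔯 (θ - c) → emb 𝔯 θ - emb 𝔯 c ∈ pw (wv 𝔯) 1 :=
    fun 𝔯 c h => by
      rw [← map_sub]
      exact mem_of_le (by rwa [ord_emb])
  have s8 := t 𝔭 8 t8
  have s9 := t 𝔮 9 t9
  rw [map_ofNat] at s8 s9
  have fe : ∀ 𝔯 : Pr L, fc (emb 𝔯 θ) = 0 := fun 𝔯 => by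
    rw [← Link1.mfc, show fc θ = 0 from hθ.eq, map_zero]
  obtain ⟨r1, r2⟩ := ram (isLoc_wv 𝔮) ((e11 𝔮).trans o2) (fe 𝔮) s9
  have n0 : (11 : L) ≠ 0 := by norm_num
  have up : ∀ α : L, α ≠ 0 → IsSquare (Algebra.norm ℚ α) → Even (og 𝔮 α) → hq 𝔮 α 11 = 0 →
      LSq 𝔭 α := fun α h0 hN h1 h2 => by
    have := pfAll L θ hθ 11 α 11 (by norm_num) h0 hN (by norm_num)
    rw [hs, Finset.sum_pair hne, show ((11 : ℚ) : L) = 11 by norm_num, h2, add_zero] at this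
    exact (lsq (two 𝔭 m1) h0 n0 (by rw [vv, o1]; rfl)).2 ⟨vv_zero.2 ((par α h0 hN).2 h1), this⟩
  have triv : ∀ α : L, LSq 𝔭 α → LSq 𝔮 α → LocS θ (11 * m) 11 α := fun α a b =>
    ⟨1, 0, by simp, fun 𝔯 hr => by
      rw [show α * (((1 : ℚ) : L) - (11 * m : ℤ) * ((0 : ℚ) : L) ^ 2 * θ) = α by simp]
      rcases (hm 𝔯).1 hr with rfl | rfl <;> assumption⟩
  have g0 : ∀ x : ℚ, (((11 * m : ℤ) * x : ℚ) : L) - (11 * m : ℤ) * ((1 : ℚ) : L) ^ 2 * θ =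
      (11 * m : ℤ) * ((x : L) - θ) := fun x => by push_cast; ring
  have d0 : ((11 * m : ℤ) : L) ≠ 0 := Int.cast_ne_zero.2 hd.ne_zero
  have x0 : ∀ x : ℚ, (x : L) - θ ≠ 0 := fun x => sub_ne_zero.2 (p6 x).1
  rcases res m with ⟨r, hr⟩ | hr
  · obtain ⟨β, hβ⟩ : ∃ β : L, β = -464 * 11 ^ 5 * (((-420 : ℚ) : L) - θ) := ⟨_, rfl⟩
    have b0 : β ≠ 0 := hβ ▸ mul_ne_zero (by norm_num) (x0 _)
    have bN : IsSquare (Algebra.norm ℚ β) := ⟨(464 * 11 ^ 5) ^ 2, by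
      rw [hβ, map_mul, (p6 _).2, show (-464 * 11 ^ 5 : L) = algebraMap ℚ L (-464 * 11 ^ 5) by simp,
        Algebra.norm_algebraMap, hθ.rk]
      norm_num [fc]⟩
    have u := int_unit m2 (n := -464) (by norm_num)
    have b1 : vv 𝔮 (-β) = 1 := by
      rw [vv, og, ord_neg, ← og, ← ord_emb, hβ]
      simp only [map_mul, map_neg, map_pow, map_sub, map_ofNat, map_ratCast]
      push_cast at u ⊢
      have z : (-420 - emb 𝔮 θ) ≠ 0 := fun z => by simp [z] at r2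
      have z' : (11 : Kc 𝔮) ≠ 0 := fun z => by have := e11 𝔮; simp [z, o2] at this
      rw [ord_mul (mul_ne_zero u.1 (pow_ne_zero _ z')) z, ord_mul u.1 (pow_ne_zero _ z'), u.2,
        ord_pow, e11, o2, r2]
      decide
    have nb := neg_ne_zero.2 b0
    have key : ∀ γ : L, γ ≠ 0 → IsSquare (Algebra.norm ℚ γ) → vv 𝔮 γ = 0 → hq 𝔮 γ (-β) = 0 →
        LSq 𝔭 γ ∧ LSq 𝔮 γ := fun γ a b c e => by
      have s := (lsq (two 𝔮 m2) a nb b1).2 ⟨c, e⟩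
      exact ⟨up γ a b (vv_zero.1 c) (hs_of_isSquare_left (isLoc_wv 𝔮).two (en a) s _), s⟩
    refine ⟨fun x => hq 𝔮 x (-β), fun x y a b => hq_mul a b nb, fun α h0 hN h => ?_⟩
    replace h : hq 𝔮 α (-β) = 0 := h
    rcases zmod2_cases (vv 𝔮 α) with c | c
    · exact triv α (key α h0 hN c h).1 (key α h0 hN c h).2
    have k := key (α * β) (mul_ne_zero h0 b0) (by rw [map_mul]; exact hN.mul bN)
      (by rw [vv_mul h0 b0, c, show vv 𝔮 β = 1 by rwa [vv, og, ord_neg] at b1]; rfl)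
      (by rw [hq_mul h0 b0 nb, h, zero_add]; simpa using hq_neg (𝔮 := 𝔮) nb)
    have r11 : ¬ (11 : ℤ) ∣ 3 * r := fun e => m11 (by
      have : (11 : ℤ) ∣ r := by omega
      simpa using dvd_add hr (dvd_pow this two_ne_zero))
    refine ⟨(11 * m : ℤ) * (-420), 1, g0 _ ▸ mul_ne_zero d0 (x0 _), fun 𝔯 h' => ?_⟩
    have s : LSq 𝔯 (α * β) ∧ (11 : Kc 𝔯) ∈ pw (wv 𝔯) 1 := by
      rcases (hm 𝔯).1 h' with rfl | rfl
      exacts [⟨k.1, m1⟩, ⟨k.2, m2⟩]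
    have s' := sq_of_cong (isLoc_wv 𝔯) s.2 (b := (-464 * m : ℤ)) r11 (by
      rw [← Int.cast_pow, ← Int.cast_sub, int_mem1 s.2]
      rw [show -464 * m - (3 * r) ^ 2 = -464 * (m - r ^ 2) - 11 * (43 * r ^ 2) by ring]
      exact dvd_sub (hr.mul_left _) (dvd_mul_right _ _))
    rw [g0, show α * ((11 * m : ℤ) * (((-420 : ℚ) : L) - θ)) =
      α * β * (-464 * m : ℤ) * (1 / (464 * 11 ^ 2)) ^ 2 by rw [hβ]; push_cast; field_simp,
      LSq, map_mul, map_mul (emb 𝔯) (α * β), map_intCast, map_pow]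
    exact (IsSquare.mul s.1 s').mul (IsSquare.sq _)
  · refine ⟨_, ad, fun α h0 hN h => ?_⟩
    have e2 := ev α h0 hN h 𝔮 ((hab 𝔮).2 (Or.inr rfl))
    have sp := up α h0 hN e2 (by rw [hq_even (two 𝔮 m2) h0 n0 (vv_zero.2 e2), vv, o2,
      show ((2 : ℤ) : ZMod 2) = 0 from rfl, mul_zero])
    by_cases sq : LSq 𝔮 α
    · exact triv α sp sq
    refine ⟨(11 * m : ℤ) * ((11 * m - 3 : ℤ) : ℚ), 1, g0 _ ▸ mul_ne_zero d0 (x0 _), fun 𝔯 h' => ?_⟩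
    rw [g0, LSq, map_mul, map_mul, map_sub, Rat.cast_intCast, map_intCast, map_intCast]
    push_cast
    rcases (hm 𝔯).1 h' with rfl | rfl
    · exact IsSquare.mul sp (spl (isLoc_wv _) ((e11 _).trans o1) (fe _) s8 m11)
    have b2 := nsq_of_cong ((rc_wv 𝔯).trans n2) m2 hr (b := m * (emb 𝔯 θ + 3 - 11 * m)) (by
      rw [show (m : Kc 𝔯) * (emb 𝔯 θ + 3 - 11 * m) - m =
        m * (emb 𝔯 θ - 9) + (m * (1 - m) : ℤ) * 11 by push_cast; ring]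
      exact add_mem (pw_mul (int_mem m) s9 le_rfl) (pw_mul (int_mem _) m2 le_rfl))
    have unr : ∀ a : Kc 𝔯, a ≠ 0 → Even (ord (wv 𝔯) a) → Stark.Unr (wv 𝔯) a := fun a a0 he =>
      (isLoc_wv 𝔯).unr_of_odd (LocD.two (two 𝔯 m2)) a0 he
    rw [show emb 𝔯 α * (11 * m * (11 * m - 3 - emb 𝔯 θ)) =
      emb 𝔯 α * (m * (emb 𝔯 θ + 3 - 11 * m)) * (-11) by ring]
    exact ((isLoc_wv _).isSquare_mul_of_unr (en h0) b2.1 (unr _ (en h0) (by rwa [ord_emb]))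
      (unr _ b2.1 (b2.2.1 ▸ Even.zero)) sq b2.2.2).mul r1

end Pool.Agent.Lib.MP_d6ddbd_nt.GQ
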