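import Pool.Agent.Lib.MP_d6ddbd_nt.K11.AllX

/-!
The local condition at an odd good prime that divides `d`, for every squarefree `d`.
-/

set_option autoImplicit false

open NumberField Finset Pool.Agent.Stark
open Pool.Agent.Lib.MP_d6ddbd_nt.K11 Pool.Agent.Lib.MP_d6ddbd_nt.K11.LocD
open scoped Classical

namespace Pool.Agent.Lib.MP_d6ddbd_nt.GQ

theorem locd {L : Type} [Field L] [NumberField L] {θ : L} (hθ : Cub θ) {d : ℤ} {l : ℕ}
    (hd : Squarefree d) (hl : l.Prime) (hld : (l : ℤ) ∣ d) (l2 : l ≠ 2) (l11 : l ≠ 11) :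
    ∃ E : Finset (Pr L), E.card ≤ (nr l + 1) / 2 ∧ ∀ α : L, α ≠ 0 →
      IsSquare (Algebra.norm ℚ α) → (∀ 𝔭 ∈ E, bv θ d 𝔭 α = 0) → LocS θ d l α := by
  obtain ⟨-, -, p3, p4, p5, p6, -⟩ := pr_thm L θ hθ
  obtain ⟨q1, q2, t0, t1, t3, tt⟩ := p3 l hl l2 l11
  have dv : ∀ 𝔮 ∈ ab L l, ∀ n : ℕ, ¬ l ∣ n → og 𝔮 (n : L) = 0 := fun 𝔮 h n hn => by
    obtain ⟨-, l', h1, -, h2⟩ := p5 𝔮
    obtain rfl := (Nat.prime_dvd_prime_iff_eq h1 hl).1 ((h2 l hl.ne_zero).1 h)
    exact by_contra fun e => hn ((h2 n fun z => hn (z ▸ dvd_zero _)).1 (mem_ab.2 e))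
  have H : Cx θ d l :=
    { d0 := Int.cast_ne_zero.2 hd.ne_zero
      ne := fun x => sub_ne_zero.2 (p6 x).1
      nrm := fun x => ⟨fc x ^ 2, by
        rw [map_mul, (p6 x).2, show fc (x : L) = algebraMap ℚ L (fc x) by simp [fc],
          Algebra.norm_algebraMap, hθ.rk]
        ring⟩
      eq := hθ.eq
      two := fun h => (q1 _ h).2.1
      one := fun {𝔮} h => by
        obtain ⟨e, rfl⟩ := hld
        have n : ¬ l ∣ e.natAbs := fun k => (Nat.prime_iff_prime_int.1 hl).not_unit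
          (hd l (mul_dvd_mul_left _ (Int.natCast_dvd.2 k)))
        have := dv 𝔮 h _ n
        rw [Int.cast_mul, og_mul (by simpa using hl.ne_zero) (by
          simpa using fun z : e = 0 => n (by simp [z])), Int.cast_natCast, (q1 𝔮 h).1]
        obtain ⟨k, rfl | rfl⟩ := e.eq_nat_or_neg <;> simpa [og] using this
      fd1 := fun h => (q1 _ h).2.2.1
      int := fun 𝔮 => (p5 𝔮).1
      rat := fun {𝔭 𝔮} h h' => og_rat fun p hp => by
        by_cases e : p = l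
        · rw [e, (q1 𝔭 h).1, (q1 𝔮 h').1]
        · have n := mt (Nat.prime_dvd_prime_iff_eq hl hp).1 (Ne.symm e)
          rw [dv 𝔭 h p n, dv 𝔮 h' p n]
      xr1 := fun h => (q1 _ h).2.2.2.1.1
      xr0 := fun h h' => q2 _ h _ h'
      pf := fun h h' _ => pfAll L θ hθ l _ _ hl h h' }
  have par : ∀ α : L, α ≠ 0 → IsSquare (Algebra.norm ℚ α) →
      ∑ 𝔮 ∈ ab L l, (Nat.log l (nm 𝔮) : ZMod 2) * vv 𝔮 α = 0 := fun α h h' => by
    simpa [vv] using ZMod.intCast_eq_zero_iff_even.2 ((p4 l α hl h).2 h')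
  have lg := Nat.log_pow hl.one_lt
  have l1 : Nat.log l l = 1 := by simpa using lg 1
  have np : ∀ k, k ≠ 1 → l ^ k ≠ l := fun k h e => h (by simpa [lg, l1] using congrArg (Nat.log l) e)
  rcases tt with e | e | e
  · obtain ⟨𝔭, hA, n⟩ := t0 e
    have z : ∀ α : L, α ≠ 0 → IsSquare (Algebra.norm ℚ α) → vv 𝔭 α = 0 := fun α h h' => by
      have := par α h h'
      rwa [hA, sum_singleton, n, lg, show ((3 : ℕ) : ZMod 2) = 1 from rfl, one_mul] at this
    refine ⟨∅, by simp, fun α h s _ => (H.loc h s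
      (Or.inl fun 𝔮 k => ?_) (fun 𝔮 k 𝔮' k' _ _ => ?_) hl.ne_zero).2 fun 𝔮 k k' => ?_⟩
    · rw [hA, mem_singleton] at k
      exact k ▸ vv_zero.1 (z α h s)
    · rw [hA, mem_singleton] at k k'
      rw [k, k']
    · rw [hA, mem_singleton] at k
      exact absurd (n.symm.trans (k ▸ k')) (np 3 (by decide))
  · obtain ⟨𝔭, 𝔮, ne, hA, n1, n2⟩ := t1 e
    have m1 := (hA 𝔭).2 (Or.inl rfl)
    have A : ab L l = {𝔭, 𝔮} := Finset.ext fun 𝔯 => by simp [hA]
    have z : ∀ α : L, α ≠ 0 → IsSquare (Algebra.norm ℚ α) → vv 𝔭 α = 0 := fun α h h' => by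
      have := par α h h'
      rwa [A, sum_pair ne, n1, n2, lg, l1, show ((2 : ℕ) : ZMod 2) = 0 from rfl, zero_mul, add_zero,
        Nat.cast_one, one_mul] at this
    refine ⟨{𝔭}, by simp [e], fun α h s b => (H.loc h s ?_
      (fun 𝔯 k 𝔯' k' a a' => ?_) hl.ne_zero).2 fun 𝔯 k k' => ?_⟩
    · by_cases k : Even (og 𝔮 α)
      · refine Or.inl fun 𝔯 r => ?_
        rcases (hA 𝔯).1 r with rfl | rfl
        exacts [vv_zero.1 (z α h s), k]
      · refine Or.inr ⟨𝔭, m1, n1, fun 𝔯 r => ?_⟩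
        rcases (hA 𝔯).1 r with rfl | rfl
        exacts [iff_of_true (vv_zero.1 (z α h s)) rfl, iff_of_false k ne.symm]
    · rw [((hA 𝔯).1 k).resolve_left fun e => a (e ▸ n1),
        ((hA 𝔯').1 k').resolve_left fun e => a' (e ▸ n1)]
    · rcases (hA 𝔯).1 k with rfl | rfl
      · exact b _ (mem_singleton_self _)
      · exact absurd (n2.symm.trans k') (np 2 (by decide))
  · obtain ⟨hc, n⟩ := t3 e
    obtain ⟨𝔭, 𝔮, 𝔯, n1, n2, n3, A⟩ := card_eq_three.1 hc
    have m1 : 𝔭 ∈ ab L l := by simp [A]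
    have m2 : 𝔮 ∈ ab L l := by simp [A]
    have m3 : 𝔯 ∈ ab L l := by simp [A]
    have S : ∀ f : Pr L → ZMod 2, ∑ x ∈ ab L l, f x = f 𝔭 + f 𝔮 + f 𝔯 := fun f => by
      rw [A, sum_insert (by simp [n1, n2]), sum_pair n3, add_assoc]
    have E : ∀ f : Pr L → ZMod 2, ∀ x ∈ ab L l,
        ∑ y ∈ (ab L l).erase x, f y = f 𝔭 + f 𝔮 + f 𝔯 + f x := fun f x k => by
      rw [← S, ← add_sum_erase _ _ k, add_right_comm, CharTwo.add_self_eq_zero, zero_add]
    have z : ∀ α : L, α ≠ 0 → IsSquare (Algebra.norm ℚ α) → vv 𝔯 α = vv 𝔭 α + vv 𝔮 α :=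
      fun α h h' => by
      have := par α h h'
      rw [S, n _ m1, n _ m2, n _ m3, l1] at this
      grind
    have c1 := H.club m1 (n _ m1) m2 (n _ m2) n1
    have c2 := H.club m1 (n _ m1) m3 (n _ m3) n2
    have c3 := H.club m2 (n _ m2) m3 (n _ m3) n3
    have d1 := H.neg m1 (n _ m1)
    have d2 := H.neg m2 (n _ m2)
    rw [E _ _ m1] at d1
    rw [E _ _ m2] at d2
    have d3 : hq 𝔮 (-1) (d : L) = hq 𝔭 (-1) (d : L) := by grind
    have d4 : hq 𝔯 (-1) (d : L) = hq 𝔭 (-1) (d : L) := by grind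
    have M : ∀ x ∈ ab L l, x = 𝔭 ∨ x = 𝔮 ∨ x = 𝔯 := fun x k => by simpa [A] using k
    refine ⟨{𝔭, 𝔮}, by rw [card_pair n1, e], fun α h s b => (H.loc h s ?_
      (fun x k _ _ a _ => absurd (n x k) a) hl.ne_zero).2 fun x k _ => ?_⟩
    · have a := z α h s
      simp only [← vv_zero]
      rcases zmod2_cases (vv 𝔭 α) with b | b <;> rcases zmod2_cases (vv 𝔮 α) with b' | b' <;>
        rw [b, b'] at a
      · exact Or.inl fun x k => by rcases M x k with rfl | rfl | rfl <;> simp [*]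
      · exact Or.inr ⟨𝔭, m1, n _ m1, fun x k => by
          rcases M x k with rfl | rfl | rfl <;> simp [a, b, b', n1.symm, n2.symm]⟩
      · exact Or.inr ⟨𝔮, m2, n _ m2, fun x k => by
          rcases M x k with rfl | rfl | rfl <;> simp [a, b, b', n1, n3.symm]⟩
      · exact Or.inr ⟨𝔯, m3, n _ m3, fun x k => by
          rcases M x k with rfl | rfl | rfl <;> simp [a, b, b', n2, n3, CharTwo.add_self_eq_zero]⟩
    · have b1 := b 𝔭 (by simp)
      have b2 := b 𝔮 (by simp)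
      have b3 : ∑ y ∈ ab L l, bv θ d y α = 0 := by
        have a1 := H.pfd h s
        rw [S] at a1
        simp only [S, H.bv_eq h s m1 (n _ m1),
          H.bv_eq h s m2 (n _ m2), H.bv_eq h s m3 (n _ m3), E _ _ m1, E _ _ m2, E _ _ m3, c1, c2,
          c3, d3, d4, z α h s]
        grind
      rw [S, b1, b2, zero_add, zero_add] at b3
      rcases M x k with rfl | rfl | rfl
      exacts [b1, b2, b3]

end Pool.Agent.Lib.MP_d6ddbd_nt.GQ
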