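import Pool.Agent.Lib.MP_d6ddbd_nt.K11.AllX

/-!
The local condition at `2` contains the kernel of a linear form, for every twist.
-/

set_option autoImplicit false

open NumberField Pool.Agent.Stark Pool.Agent.Stark.LocAux
open Pool.Agent.Lib.MP_d6ddbd_nt.K11 Pool.Agent.Lib.MP_d6ddbd_nt.K11.Two

namespace Pool.Agent.Lib.MP_d6ddbd_nt.GQ

namespace Tw

variable {k : Type*} [Field k] {w : Valuation k (WithZero (Multiplicative ℤ))} {a π : k}
  (h : H w π)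
include h

theorem inv : (1 - π) * (π ^ 2 - π - 1) = 1 := by linear_combination -h.eq

theorem e0 : 1 - π ≠ 0 := left_ne_zero_of_mul_eq_one (inv h)

theorem e2 : hs (1 - π) 2 = 0 := by
  have m : (-1 : k) ≠ 0 := by simp
  have a : hs (-(1 - π)) 2 = 0 := hs_eq_zero.2 ⟨π, π, by linear_combination h.eq⟩
  have b : hs (-1 : k) 2 = 0 := hs_eq_zero.2 ⟨1, 1, by ring⟩
  have := h.L.hs_mul_left m (neg_ne_zero.2 (e0 h)) h.L.two
  rwa [a, b, add_zero, neg_mul_neg, one_mul] at this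

theorem e1 : hs (1 - π) (-1) = 0 := by
  have m : (-1 : k) ≠ 0 := by simp
  have a : hs (1 - π) π = 0 := by simpa using hs_one_sub (1 - π)
  have p := h.p0
  rw [hs_congr_right _ p (mul_ne_zero m h.L.two) ⟨2 * (π ^ 2 - π - 1) / π, by
    field_simp
    linear_combination (-4 * π - 2) * h.eq⟩, h.L.hs_mul_right (e0 h) m h.L.two, e2 h, add_zero] at a
  exact a

theorem step (ha : U w 1 a) : U w 2 a ∨ U w 2 (a * (1 - π)) := by
  have p := h.pp 1
  rw [pow_one] at p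
  exact h.step le_rfl ha (by simpa using p.1) (by simpa using p.2)

theorem sq5 (ha : U w 5 a) (b2 : hs a 2 = 0) (b1 : hs a (1 - π) = 0) : IsSquare a := by
  obtain ⟨-, -, a0, -⟩ := ha.ex (by norm_num)
  by_contra n
  obtain ⟨c, c0, hc⟩ := h.L.exists_hs_one a0 n
  have u2 : ∀ c, c ≠ 0 → U w 2 c → hs a c = 0 := fun c c0 e => by
    rw [hs_comm h.L.two a0 c0]
    exact h.hs0 (h.up 1 (.inl rfl) e) ha
  have ev : ∀ c, c ≠ 0 → Even (ord w c) → hs a c = 0 := fun c c0 e => by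
    rcases step h (h.one c0 e) with e | e
    · exact u2 c c0 e
    · have := u2 _ (mul_ne_zero c0 (e0 h)) e
      rwa [h.L.hs_mul_right a0 c0 (e0 h), b1, add_zero] at this
  refine zero_ne_one (Eq.symm (hc.symm.trans ?_))
  rcases Int.even_or_odd (ord w c) with e | e
  · exact ev c c0 e
  · have := ev _ (mul_ne_zero c0 h.L.two) (by
      rw [ord_mul c0 h.L.two, h.o2]
      exact e.add_odd (by decide))
    rwa [h.L.hs_mul_right a0 c0 h.L.two, b2, add_zero] at this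

theorem line (m1 : hs (-1 : k) (-1) = 1) (a0 : a ≠ 0) (ev : Even (ord w a)) (b1 : hs a (-1) = 0)
    (b2 : hs a 2 = 0) (b3 : hs a (1 - π) = 0) : IsSquare a ∨ IsSquare (a * (1 - π)) := by
  have m : (-1 : k) ≠ 0 := by simp
  have e := e0 h
  refine (step h (h.one a0 ev)).imp (fun u => sq5 h (h.five m1 u b1) b2 b3) fun u =>
    sq5 h (h.five m1 u ?_) ?_ ?_
  · rw [h.L.hs_mul_left a0 e m, b1, e1 h, add_zero]
  · rw [h.L.hs_mul_left a0 e h.L.two, b2, e2 h, add_zero]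
  · have := h.L.hs_mul_right e m e
    rw [neg_one_mul, hs_neg_self, e1 h, zero_add] at this
    rw [h.L.hs_mul_left a0 e e, b3, ← this, add_zero]

theorem pt (j : ℤ) :
    U w 7 ((1 - π) * (1 + 7 * (2 * j + 1 : ℤ) * π - 4 * (2 * j + 1 : ℤ) * π ^ 2)) := by
  have p := (h.pp 1).1
  rw [pow_one] at p
  have p0 : π ∈ pw w 0 := anti zero_le_one p
  have f : ∀ n n' : ℤ, 2 * 2 * π * (n + n' * π) ∈ pw w 7 := fun n n' =>
    pw_mul (pw_mul (pw_mul (l := 6) h.two h.two le_rfl) p le_rfl)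
      (add_mem (int_mem n) (pw_mul (int_mem n') p0 le_rfl)) le_rfl
  have e : 1 - π ∈ pw w 0 := sub_mem one_mem p0
  obtain ⟨i, rfl | rfl⟩ := Int.even_or_odd' j
  · refine ⟨π ^ 2 - π - 1, cg (pw_mul (f (7 * i + 2) (-(4 * i + 1)))
      (sub_mem (sub_mem (pw_mul p0 p0 le_rfl) p0) one_mem) le_rfl) ?_⟩
    have := inv h
    push_cast
    linear_combination ((1 + 7 * (2 * (2 * i) + 1) * π - 4 * (2 * (2 * i) + 1) * π ^ 2) *
      (π ^ 2 - π - 1) + 1) * this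
  · refine ⟨1 - π, cg (pw_mul (f (7 * i + 5) (-(4 * i + 3)))
      (pw_mul e (pw_mul (l := 0) e e le_rfl) le_rfl) le_rfl) ?_⟩
    push_cast
    linear_combination (-π) * h.eq

end Tw

open Tw in
theorem tw_thm {L : Type} [Field L] [NumberField L] {θ : L} (hθ : Cub θ) {d : ℤ}
    (hd : Squarefree d) : ∃ f : L → ZMod 2,
      (∀ x y : L, x ≠ 0 → y ≠ 0 → (∀ 𝔭 ∈ ab L 2, Even (og 𝔭 x)) → (∀ 𝔭 ∈ ab L 2, Even (og 𝔭 y)) →
        f (x * y) = f x + f y) ∧ (∀ t, t ≠ 0 → f (t * t) = 0) ∧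
      ∀ α : L, α ≠ 0 → IsSquare (Algebra.norm ℚ α) → f α = 0 → LocS θ d 2 α := by
  classical
  obtain ⟨⟨ϑ, e1, e2, 𝔭, e3, e4, e5, e6⟩, -, -, hN, -, p6, -, -, -, φ, hφ, -⟩ := pr_thm L θ hθ
  have t2 : emb 𝔭 2 = 2 := map_ofNat _ 2
  have h : H (wv 𝔭) (emb 𝔭 ϑ) := ⟨isLoc_wv 𝔭, (rc_wv 𝔭).trans e4, by rw [← t2, ord_emb, e5],
    (map_ne_zero _).2 fun e => by simp [e, og] at e6, (ord_emb _ _).trans e6,
    by simpa [t2] using congrArg (emb 𝔭) e1⟩
  have : CharZero (Kc 𝔭) := charZero_of_injective_ringHom (emb 𝔭).injective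
  have n0 : ∀ {α : L}, α ≠ 0 → emb 𝔭 α ≠ 0 := (map_ne_zero _).2
  have pf : ∀ {α : L}, α ≠ 0 → IsSquare (Algebra.norm ℚ α) → ∀ c : ℚ, c ≠ 0 →
      hs (emb 𝔭 α) c = 0 := fun a0 a1 c c0 => by
    simpa [e3, hq] using pfAll L θ hθ 2 _ c Nat.prime_two a0 a1 c0
  have m1 : hs (-1 : Kc 𝔭) (-1) = 1 := by
    have m : (-1 : L) ≠ 0 := by simp
    have := reciprocity m m (ab L 2) fun q hq => hq_eq_zero q (by simpa [mem_ab] using hq) m m
      (by simp [og]) (by simp [og])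
    rw [Fintype.sum_eq_single φ fun ψ e => absurd (hφ ψ) e, e3, Finset.sum_singleton, hq,
      map_neg, map_one, map_neg, map_one, hs_real (by simp) (by simp), if_pos (by simp)] at this
    exact (zmod2_cases _).resolve_left fun e => by simp [e] at this
  have pm : ∀ 𝔮 : Pr L, ((2 : ℕ) : 𝓞 L) ∈ 𝔮.asIdeal ↔ 𝔮 = 𝔭 := fun 𝔮 => by
    rw [← mem_ab' two_ne_zero, e3, Finset.mem_singleton]
  have em : ∀ x z : ℚ, emb 𝔭 ((x : L) - d * (z : L) ^ 2 * θ) =
      x - d * (z : Kc 𝔭) ^ 2 * (8 * emb 𝔭 ϑ ^ 2 - 14 * emb 𝔭 ϑ) := fun x z => by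
    simp only [e2, map_sub, map_mul, map_pow, map_ratCast, map_intCast, map_ofNat]
  simp only [LocS, pm, forall_eq, LSq, map_mul]
  obtain ⟨j, rfl | rfl⟩ := Int.even_or_odd' d
  · obtain ⟨i, rfl⟩ : Odd j := Int.not_even_iff_odd.1 fun e =>
      absurd (hd 2 (mul_dvd_mul_left _ e.two_dvd)) (by decide)
    have ε := e0 h
    refine ⟨fun x => hs (emb 𝔭 x) (1 - emb 𝔭 ϑ), fun x y a b _ _ => ?_, fun t ht => ?_,
      fun α a0 a1 a => ?_⟩
    · beta_reduce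
      rw [map_mul]
      exact h.L.hs_mul_left (n0 a) (n0 b) ε
    · exact hs_of_isSquare_left h.L.two (n0 (mul_ne_zero ht ht)) ⟨_, map_mul _ t t⟩ _
    have ev := (hN 2 α Nat.prime_two a0).2 a1
    rw [e3, Finset.sum_singleton, e4, ← ord_emb, show Nat.log 2 2 = 1 by norm_num] at ev
    rcases line h m1 (n0 a0) (by simpa using ev) (by simpa using pf a0 a1 (-1) (by simp))
      (by simpa using pf a0 a1 2 two_ne_zero) a with s | s
    · exact ⟨1, 0, by simp, by simpa using s⟩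
    have u := pt h i
    have g : emb 𝔭 (((1 : ℚ) : L) - (2 * (2 * i + 1) : ℤ) * ((1 / 2 : ℚ) : L) ^ 2 * θ) =
        1 + 7 * (2 * i + 1 : ℤ) * emb 𝔭 ϑ - 4 * (2 * i + 1 : ℤ) * emb 𝔭 ϑ ^ 2 := by
      rw [em]
      push_cast
      ring
    obtain ⟨-, -, u0, -⟩ := u.ex (by norm_num)
    refine ⟨1, 1 / 2, fun e => right_ne_zero_of_mul u0 (by rw [← g, e, map_zero]), ?_⟩
    rw [g]
    have := (s.mul (h.sq7 u)).mul (IsSquare.sq (1 - emb 𝔭 ϑ)⁻¹)
    have k : ∀ x y z : Kc 𝔭, y ≠ 0 → x * y * (y * z) * y⁻¹ ^ 2 = x * z := fun x y z e => by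
      field_simp
    rwa [k _ _ _ ε] at this
  obtain ⟨t1, t2, -⟩ := two_thm pr_thm pfAll L θ hθ
  have c2 : (1 + 1 : ZMod 2) = 0 := by decide
  refine ⟨fun x => if At2 x then 0 else 1, fun x y a b a' b' => ?_, fun t ht =>
    if_pos (K11.L.at2_one ht), fun α a0 a1 a => ?_⟩
  · beta_reduce
    by_cases h1 : At2 x <;> by_cases h2 : At2 y
    · simp [h1, h2, t1 x y a b h1 h2]
    · rw [if_pos h1, if_neg h2, if_neg, zero_add]
      intro h3
      have := t1 _ _ a (mul_ne_zero a b) h1 h3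
      exact h2 (K11.L.at2_sq (t := x) (by rwa [show y * (x * x) = x * (x * y) by ring]))
    · rw [if_neg h1, if_pos h2, if_neg, add_zero]
      intro h3
      have := t1 _ _ b (mul_ne_zero a b) h2 h3
      exact h1 (K11.L.at2_sq (t := y) (by rwa [show x * (y * y) = y * (x * y) by ring]))
    · rw [if_neg h1, if_neg h2, c2, if_pos (t2 x y a b (fun 𝔭 m => ⟨a' 𝔭 m, b' 𝔭 m⟩) h1 h2)]
  have a2 : At2 α := by_contra fun n => by simp [n] at a
  rcases h.ex j (h.five m1 ((glob e3 _).1 a2) (by simpa using pf a0 a1 (-1) (by simp)))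
    (by simpa using pf a0 a1 2 two_ne_zero) with s | s
  · exact ⟨1, 0, by simp, by simpa using s⟩
  · have d0 : ((2 * j + 1 : ℤ) : ℚ) ≠ 0 := Int.cast_ne_zero.2 hd.ne_zero
    refine ⟨5, 1, fun e => (p6 (5 / (2 * j + 1 : ℤ))).1 ?_, by rw [em]; simpa using s⟩
    have d1 : ((2 * j + 1 : ℤ) : L) ≠ 0 := Int.cast_ne_zero.2 hd.ne_zero
    rw [Rat.cast_div, Rat.cast_intCast, div_eq_iff d1]
    push_cast at e ⊢
    linear_combination e

end Pool.Agent.Lib.MP_d6ddbd_nt.GQ
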