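import Pool.Agent.Lib.MP_d6ddbd_nt.GA.Gw
import Pool.Agent.Lib.MP_d6ddbd_nt.GQ.LocD
import Pool.Agent.Lib.MP_d6ddbd_nt.GQ.El
import Pool.Agent.Lib.MP_d6ddbd_nt.GQ.Tw

/-!
The lower bound for the relaxed Selmer groups, for every squarefree twist.
-/

set_option autoImplicit false
set_option maxSynthPendingDepth 3

open NumberField
open Pool.Agent.Stark (SqCl cl cl_mul cl_eq_zero IsSel Sel finite_Sel finrank_Sel)
open Pool.Agent.Lib.MP_d6ddbd_nt.K11 Pool.Agent.Lib.MP_d6ddbd_nt.KI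
open Pool.Agent.Lib.MP_d6ddbd_nt.K11.L

namespace Pool.Agent.Lib.MP_d6ddbd_nt.GQ

theorem ex_cls {L : Type} [Field L] [NumberField L] {θ : L} (hθ : Cub θ) {d : ℤ}
    (hd : Squarefree d) {B : Finset ℕ}
    (hB : ∀ p ∈ B, p.Prime ∧ p ≠ 2 ∧ p ≠ 11 ∧ ¬ (p : ℤ) ∣ d ∧ nr p = 1) :
    ∃ x : Fin B.card → L, LinearIndependent (ZMod 2) (fun i => cl (x i)) ∧ ∀ i, x i ≠ 0 ∧
      IsSquare (Algebra.norm ℚ (x i)) ∧ ∀ p : ℕ, p.Prime → p ∉ B → LocS θ d p (x i) := by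
  classical
  let D := d.natAbs.primeFactors.filter fun l => l ≠ 2 ∧ l ≠ 11
  have hD : ∀ l, l ∈ D ↔ l.Prime ∧ (l : ℤ) ∣ d ∧ l ≠ 2 ∧ l ≠ 11 := fun l => by
    simp [D, Nat.mem_primeFactors, Int.natCast_dvd, hd.ne_zero, and_assoc]
  have hdj : Disjoint D B :=
    Finset.disjoint_left.2 fun l h1 h2 => (hB l h2).2.2.2.1 ((hD l).1 h1).2.1
  have hU : ∀ l ∈ D ∪ B, l.Prime ∧ l ≠ 2 ∧ l ≠ 11 := fun l hl => (Finset.mem_union.1 hl).elim
    (fun h => ⟨((hD l).1 h).1, ((hD l).1 h).2.2⟩) fun h => ⟨(hB l h).1, (hB l h).2.1, (hB l h).2.2.1⟩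
  have n11 : 11 ∉ D ∪ B := fun h => (hU 11 h).2.2 rfl
  let T := insert 11 (D ∪ B)
  have hT : ∀ l ∈ T, l.Prime ∧ l ≠ 2 := fun l hl => (Finset.mem_insert.1 hl).elim
    (fun h => h ▸ ⟨by norm_num, by norm_num⟩) fun h => ⟨(hU l h).1, (hU l h).2.1⟩
  let S := T.biUnion (ab L)
  have hS : ∀ l : ℕ, l.Prime → l ∉ T → ∀ 𝔭 ∈ ab L l, 𝔭 ∉ S := fun l hl n 𝔭 m m' => by
    obtain ⟨l', h1, h2⟩ := Finset.mem_biUnion.1 m'
    exact n (ch_eq pr_thm hθ hl (hT l' h1).1 m h2 ▸ h1)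
  choose! El e1 e2 using fun l (h : l ∈ D) => locd hθ hd ((hD l).1 h).1 ((hD l).1 h).2.1
    ((hD l).1 h).2.2.1 ((hD l).1 h).2.2.2
  let E := D.biUnion El
  obtain ⟨f, f1, f2, f3⟩ := tw_thm hθ hd
  obtain ⟨g, g1, g2⟩ := el_thm hθ hd
  have hN : ∀ {x : L}, x ≠ 0 → Algebra.norm ℚ x ≠ 0 := fun hx => Algebra.norm_ne_zero_iff.2 hx
  have c2 : (1 + 1 : ZMod 2) = 0 := by decide
  have n2 : 2 ∉ T := fun h => (hT 2 h).2 rfl
  obtain ⟨φ, hφ⟩ := exists_lin S (V := (T → ZMod 2) × ZMod 2 × ZMod 2 × ZMod 2 × (E → ZMod 2))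
    (fun x => (fun l => (padicValRat l.1 (Algebra.norm ℚ x) : ZMod 2),
      if 0 < Algebra.norm ℚ x then 0 else 1, f x, g x, fun 𝔭 => bv θ d 𝔭.1 x))
    (fun x y hx hy => by
      refine Prod.ext (funext fun l => ?_) (Prod.ext ?_ (Prod.ext ?_ (Prod.ext
        (g1 x y hx.1 hy.1) (funext fun 𝔭 => Asm.ad_bv θ d 𝔭.1 x y hx.1 hy.1))))
      · have := Fact.mk (hT l.1 l.2).1
        simp only [map_mul, padicValRat.mul (hN hx.1) (hN hy.1), Int.cast_add, Prod.fst_add,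
          Pi.add_apply]
      · simp only [map_mul, Prod.snd_add, Prod.fst_add]
        rcases lt_or_gt_of_ne (hN hx.1) with h1 | h1 <;>
          rcases lt_or_gt_of_ne (hN hy.1) with h2 | h2 <;>
          simp [h1, h2, h1.not_gt, h2.not_gt, mul_pos_iff, c2]
      · exact f1 x y hx.1 hy.1 (fun 𝔭 m => hx.2 𝔭 (hS 2 Nat.prime_two n2 𝔭 m))
          fun 𝔭 m => hy.2 𝔭 (hS 2 Nat.prime_two n2 𝔭 m))
    (fun t ht => by
      refine Prod.ext (funext fun l => ?_) (Prod.ext ?_ (Prod.ext (f2 t ht) (Prod.ext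
        ((g1 t t ht ht).trans (CharTwo.add_self_eq_zero _)) (funext fun 𝔭 =>
          (Asm.ad_bv θ d 𝔭.1 t t ht ht).trans (CharTwo.add_self_eq_zero _)))))
      · have := Fact.mk (hT l.1 l.2).1
        simp only [map_mul, padicValRat.mul (hN ht) (hN ht)]
        exact cast_even ⟨_, rfl⟩
      · simp only [map_mul]
        exact if_pos (mul_self_pos.2 (hN ht)))
  have := finite_Sel S
  have k1 := φ.finrank_range_add_finrank_ker
  have k2 := finrank_Sel S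
  have k3 := (LinearMap.range φ).finrank_le
  have k4 := two_le_card hθ.rk
  have k5 : E.card ≤ ∑ l ∈ D, (nr l + 1) / 2 :=
    Finset.card_biUnion_le.trans (Finset.sum_le_sum e1)
  have k6 : (ab L 11).card = 2 := by
    obtain ⟨𝔭, 𝔮, ne, h, -⟩ := (pr_thm L θ hθ).2.1
    rw [show ab L 11 = {𝔭, 𝔮} from Finset.ext fun 𝔯 => by simp [h], Finset.card_pair ne]
  have k7 : S.card = 2 + (∑ l ∈ D, (nr l + 1) / 2 + B.card + (D ∪ B).card) := by
    rw [Finset.card_biUnion (disj pr_thm hθ (fun l hl => (hT l hl).1) _ fun _ => subset_rfl),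
      Finset.sum_insert n11, k6, Finset.sum_congr rfl fun l hl =>
        (card_ab pr_thm hθ (hU l hl).1 (hU l hl).2.1 (hU l hl).2.2).1,
      Finset.sum_add_distrib, Finset.sum_union hdj, ← Finset.card_eq_sum_ones,
      Finset.card_eq_sum_ones B]
    congr 3
    exact Finset.sum_congr rfl fun p hp => by rw [(hB p hp).2.2.2.2]
  have k8 : T.card = (D ∪ B).card + 1 := Finset.card_insert_of_notMem n11
  simp only [Module.finrank_prod, Module.finrank_fintype_fun_eq_card, Module.finrank_self,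
    Fintype.card_coe] at k3
  obtain ⟨v, hv⟩ := exists_linearIndependent_of_le_finrank (R := ZMod 2) (M := LinearMap.ker φ)
    (n := B.card) (by omega)
  choose x x1 x2 x3 using fun i => hφ (v i).1
  refine ⟨x, ?_, fun i => ?_⟩
  · simp only [x2]
    exact (hv.map' _ (LinearMap.ker φ).ker_subtype).map' _ (Sel S).ker_subtype
  have h := (x3 i).symm.trans (v i).2
  simp only [Prod.mk_eq_zero] at h
  obtain ⟨h1, h2, h3, h4, h5⟩ := h
  have a0 := (x1 i).1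
  have a1 : IsSquare (Algebra.norm ℚ (x i)) := rat_sq (by_contra fun n => by simp [n] at h2)
    fun l hl => by
      by_cases n : l ∈ T
      · exact ZMod.intCast_eq_zero_iff_even.1 (congrFun h1 ⟨l, n⟩)
      · rw [((pr_thm L θ hθ).2.2.2.1 l _ hl a0).1]
        exact Finset.even_sum _ fun 𝔭 m => ((x1 i).2 𝔭 (hS l hl n 𝔭 m)).mul_left _
  refine ⟨a0, a1, fun p hp hn => ?_⟩
  by_cases p2 : p = 2
  · exact p2 ▸ f3 _ a0 a1 h3
  by_cases p11 : p = 11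
  · exact p11 ▸ g2 _ a0 a1 h4
  by_cases n : (p : ℤ) ∣ d
  · have m := (hD p).2 ⟨hp, n, p2, p11⟩
    exact e2 p m _ a0 a1 fun 𝔭 k => congrFun h5 ⟨𝔭, Finset.mem_biUnion.2 ⟨p, m, k⟩⟩
  · exact (good_thm pr_thm pfAll L θ hθ d p _ hp p2 p11 n a0 a1).2 fun 𝔭 m => (x1 i).2 𝔭
      (hS p hp (fun k => (Finset.mem_insert.1 k).elim p11 fun k => (Finset.mem_union.1 k).elim
        (fun k => n ((hD p).1 k).2.1) hn) 𝔭 m)

theorem gw_thm {d : ℤ} (hd : Squarefree d) : GA.Gw d := by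
  intro B hB
  obtain ⟨L, _, _, θ, hθ⟩ := Final.exists_cub
  obtain ⟨x, hv, hx⟩ := ex_cls hθ hd hB
  choose ξ a b using fun i => Cm.inv_kum pr_thm hθ (hx i).1 (hx i).2.1
  refine ⟨ξ, fun i => ⟨cy_one.2 (a i), fun p O hp hn hO => Rev.loc hθ hd.ne_zero (hx i).1
    (hx i).2.1 (a i) (b i) hp hO ((hx i).2.2 p hp hn)⟩, fun u hu => ?_⟩
  obtain ⟨c, y, y0, y1, y2⟩ := GA.Gw.comb hθ x ξ (fun i => (hx i).1) a b u Finset.univ
  rw [(cl_eq_zero y0).2 (((kumAll L θ hθ).2 y _ y0 c y1).2 ((cb_cob_iff c.two).1 hu))] at y2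
  exact funext (Fintype.linearIndependent_iff.1 hv u y2.symm)

end Pool.Agent.Lib.MP_d6ddbd_nt.GQ
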