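import Pool.Agent.Lib.MP_d6ddbd_nt.GA.Det
import Pool.Agent.Lib.MP_d6ddbd_nt.GA.Nrm

/-!
Independent classes of level one take prescribed values on commutators, for every twist.
-/

set_option autoImplicit false
set_option maxSynthPendingDepth 3

open Pool.Agent.Lib.MP_02f36d_nt (xc yc)
open Pool.Agent.Lib.MP_d6ddbd_nt.K11 Pool.Agent.Lib.MP_d6ddbd_nt.KI

noncomputable section

namespace Pool.Agent.Lib.MP_d6ddbd_nt.GQ

open GA GA.Det in
theorem ex_comm {y : G → Pt} (h : Coc y) (hb : ¬ Cob y) (x : ℂ) :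
    ∃ g ∈ Hs 1 ∅, wl x (y g) = 1 := by
  have hw := norm_thm'.1
  obtain ⟨n, hn, e⟩ := ex_n norm_thm' h hb
  have n0 : y n ≠ 0 := fun z => e (by rw [z, smul_zero])
  have ni : N0 n⁻¹ := fun T hT => inv_smul_eq_iff.2 (hn T hT).symm
  have yi : y n⁻¹ = y n := by
    have := h.mul n n⁻¹
    rw [mul_inv_cancel, Cm.coc_one h, hn _ (h.two _), eq_comm, add_zero_iff (h.two _)] at this
    exact this.symm
  have m : w3 * n * w3⁻¹ * n⁻¹ ∈ Hs 1 ∅ :=
    ⟨Subgroup.commutator_mem_commutator (Subgroup.mem_top w3) (Subgroup.mem_top n),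
      fun T hT => by rw [mul_smul, ni T (tor_one.1 hT), hn.conj w3 T (tor_one.1 hT)], by simp⟩
  have v : y (w3 * n * w3⁻¹ * n⁻¹) ≠ 0 := by
    rw [h.mul, conj h hn, yi, hn.conj w3 _ (h.two n)]
    exact fun z => cy_ne hw (h.two n) n0 ((add_zero_iff (h.two n)).1 z).symm
  generalize w3 * n * w3⁻¹ * n⁻¹ = g at m v
  have g0 : N0 g := fun T hT => m.2.1 T (tor_one.2 hT)
  have z : ∀ a : ZMod 2, a ≠ 0 → a = 1 := by decide
  by_cases c : wl x (y g) = 0
  · refine ⟨_, (Hs_normal 1 (by simp)).conj_mem g m w3, z _ fun c' => ?_⟩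
    rw [conj h g0] at c'
    have t := h.two g
    have t1 : w3 • y g ≠ 0 := fun k => v ((smul_eq_zero' _ _).1 k)
    exact cy_ne hw t v (Cm.two_ext t (Ep.two_smul' w3 t) v t1
      (((CK.wl_eq_zero.1 c).resolve_left v).trans ((CK.wl_eq_zero.1 c').resolve_left t1).symm))
  · exact ⟨g, m, z _ c⟩

theorem sj_thm (c : ℤ) : GA.Sj c := by
  classical
  intro r B μ T h1 h2 hT
  obtain ⟨h, a, b⟩ := Cm.dual' one_ne_zero (W := ∅) (by simp) B (fun i => (h1 i).1.coc) μ
    (fun S hS x _ => by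
      have e : rep B (fun i => if i ∈ S then 1 else 0) = ∑ i ∈ S, B i := by
        rw [rep, ← Finset.sum_subset (Finset.subset_univ S) fun i _ hi => by simp [hi]]
        exact Finset.sum_congr rfl fun i hi => by simp [hi, ZMod.val_one]
      have k : Cy c 1 (∑ i ∈ S, B i) := Finset.sum_induction _ (Cy c 1) (fun _ _ => Cy.add)
        (cy_zero c 1) fun i _ => (h1 i).1
      refine ex_comm k.coc (fun s => hS ?_) x
      have z := h2 _ (e ▸ (cb_cob_iff k.two).2 s)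
      exact Finset.sum_eq_zero fun i hi => absurd (congrFun z i) (by simp [hi])) hT
  refine ⟨h, ⟨a.1, a.2.1, a.2.2⟩, fun i => ?_⟩
  rw [b]
  split_ifs with e
  · rw [e, ZMod.val_zero, zero_smul]
  · rw [(by decide : ∀ a : ZMod 2, ¬ a = 0 → a = 1) _ e, ZMod.val_one, one_smul]

end Pool.Agent.Lib.MP_d6ddbd_nt.GQ
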