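import Pool.Agent.Lib.MP_d6ddbd_nt.GQ.All
import Pool.Agent.Lib.MP_d6ddbd_nt.GQ.Gw
import Pool.Agent.Lib.MP_d6ddbd_nt.GQ.Sj

/-!
The bound holds for almost all squarefree integers, without hypotheses.
-/

set_option autoImplicit false

namespace Pool.Agent.Lib.MP_d6ddbd_nt.GQ

theorem gwAll : GwStmt := fun d hd => ⟨gw_thm hd, sj_thm d⟩

theorem oneAll : OneStmt := one_of gwAll

end Pool.Agent.Lib.MP_d6ddbd_nt.GQ
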