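import Pool.Agent.Lib.MP_d6ddbd_nt.GQ.Stmt
import Pool.Agent.Lib.MP_d6ddbd_nt.GO.Alg

/-!
The interface of the algebraic half gives what the counting needs.
-/

set_option autoImplicit false

open Finset Matrix
open Pool.Agent.Lib.MP_d6ddbd_nt.K11 Pool.Agent.Lib.MP_d6ddbd_nt.KI

noncomputable section

namespace Pool.Agent.Lib.MP_d6ddbd_nt.GQ

open GO GO.Alg0 GO.Alg1 in
theorem alg_of (h1 : GA.KgStmt) (h2 : GA.SimStmt) (h3 : ValStmt) (h4 : GA.InvStmt)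
    (h5 : GA.KerT) (h6 : GA.DvStmt) (h7 : GA.CubeT) : AlgStmt := by
  classical
  intro n hn
  obtain ⟨J₀, hJ, hJ'⟩ := h1 (n + 1)
  obtain ⟨C, hC⟩ := h3
  refine ⟨16 ^ 2 ^ n, C + 11, GA.Kg (n + 1),
    fun d Q => ∃ (r : ℕ) (Q' : Fin r → ℕ), univ.image Q' = Q ∧ GA.Val (n + 1) Q' d, J₀, hJ,
    fun q O φ hq hC => hJ' q O φ hq (by omega) (by omega), fun q h => h.ty,
    fun L _ _ θ hθ d S hd h => ?_, ?_, fun d P Q hd hP hV => ?_⟩
  · obtain ⟨r, Q, a, b, c⟩ := hC L θ hθ (n + 1) d S n.succ_ne_zero hd h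
    refine ⟨univ.image Q, fun q hq => ?_, card_image_le.trans (by simp; omega), fun q hq => ?_,
      r, Q, rfl, c⟩ <;> obtain ⟨i, -, rfl⟩ := mem_image.1 hq
    exacts [b i, ⟨(c.kg i).pr, c.kg i⟩]
  · rintro d P Q hd hP p hp p' hp' ⟨r, Q', e, h⟩
    exact ⟨r, Q', e, move h2 h4 hd hP (Fintype.mem_piFinset.1 hp) (Fintype.mem_piFinset.1 hp') h⟩
  rcases (Fintype.piFinset P).eq_empty_or_nonempty with e | ⟨p₀, hp₀⟩
  · refine ⟨0, 0, Nat.zero_le _, ⟨?_, ?_, fun J => ?_⟩, fun x y _ J a b _ _ _ => ?_⟩ <;>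
      simp [e]
  obtain ⟨r, Q, rfl, hv⟩ := hV p₀ hp₀
  have hP' : GA.Cell (n + 1) Q d P := ⟨fun i p hp => t3 (hP.ty i p hp),
    sim h2 hd.ne_zero (fun i => (hv.kg i).pr) hP,
    fun p hp => move h2 h4 hd (cell0 hP) (Fintype.mem_piFinset.1 hp₀) hp hv⟩
  refine ⟨r, fun p => GA.mat (n + 1) Q (GO.dd d p), by
    rw [card_image_of_injective _ (inj hv)]; simp, ⟨fun p hp => ?_, fun p hp e => ?_,
    fun J p hp p' hp' _ => h6 (n + 1) r Q d n P p p' J (by omega) hP' (Fintype.mem_piFinset.1 hp)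
      (Fintype.mem_piFinset.1 hp')⟩, fun x y hxy J b a hb ha hab p hp p' hp' hD =>
    tp h7 hP hP' hxy hb ha hab (Fintype.mem_piFinset.1 hp) (Fintype.mem_piFinset.1 hp') hD⟩
  · exact (h5 _ r Q _ (by omega) (hP'.val p (Fintype.mem_piFinset.1 hp))).1
  · obtain ⟨u, u', a, b, c⟩ := (h5 _ r Q _ (by omega) (hP'.val p (Fintype.mem_piFinset.1 hp))).2 e
    exact ⟨u, u', (ind_iff n.succ_ne_zero u u').2 c, a, b⟩

end Pool.Agent.Lib.MP_d6ddbd_nt.GQ
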