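import Pool.Agent.Lib.MP_d6ddbd_nt.GQ.Stmt
import Pool.Agent.Lib.MP_d6ddbd_nt.GO.Det

/-!
Density one for all the twists of `X₀(11)`: almost all twists are detected by the pool.
-/

set_option autoImplicit false

open Finset Filter Topology NumberField
open Pool.Agent.Stark (Pr og)
open Pool.Agent.Lib.MP_d6ddbd_nt.K11 Pool.Agent.Lib.MP_d6ddbd_nt.KI
open scoped Classical

noncomputable section

namespace Pool.Agent.Lib.MP_d6ddbd_nt.GQ

open GO in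
theorem det_thm (h1 : FdStmt) (h2 : PoolStmt) (h3 : LargeStmt) (h4 : SmallStmt) (h5 : ExStmt) :
    DetStmt := by
  intro n D C Kg Val J₀ hA L _ _ θ hθ N ε hN hε
  obtain ⟨k, rfl⟩ : ∃ k, N = k + 1 := ⟨N - 1, by omega⟩
  obtain ⟨S₀, δ, hδ, hlim, hS₀⟩ := h1.1 J₀ hA.al
  obtain ⟨C₁, c, hC₁, hc, hL⟩ := h3 L θ hθ
  have hε3 : 0 < ε / 3 := by positivity
  have hcc : 0 < c / 2 ^ (k + 1) := by positivity
  filter_upwards [h2 S₀ δ k hδ hlim (by omega), h4 L θ hθ (k + 1) (ε / 3) hN hε3,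
    Det.sav (C₁ * 2 ^ (4 * (k + 1)) * 2) (c / 2 ^ (k + 1)) (ε / 3) (5 * (k + 1)) hcc hε3,
    eventually_ge_atTop (C + 11),
    tendsto_natCast_atTop_atTop.eventually_ge_atTop (6 / ε : ℝ)] with t hP hSm hsav ht htε
  obtain ⟨y, S, hy, hlo, hhi, hS, hcard, hsum⟩ := hP
  have ht' : (C : ℝ) + 11 ≤ t := by exact_mod_cast ht
  have hC0 : (0 : ℝ) ≤ C := Nat.cast_nonneg C
  have ht1 : (1 : ℝ) ≤ t := by linarith
  have ht0 : (0 : ℝ) < t := by linarith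
  have htk : (t : ℝ) ≤ (t : ℝ) ^ k := le_self_pow₀ ht1 (by omega)
  have hyl : Real.log y + 1 ≤ y := by
    have := Real.log_le_sub_one_of_pos hy
    linarith
  have hyC : (C : ℝ) + 11 ≤ y := by linarith
  have hye : y ≤ Real.exp ((t : ℝ) ^ (k + 1)) := by
    rw [← Real.exp_log hy]; exact Real.exp_le_exp.2 hhi
  have hKg : ∀ q ∈ S, Kg q := by
    intro q hq
    obtain ⟨hp, hq0, hq1, -⟩ := hS q hq
    obtain ⟨O, φ, hO, hφ, hag⟩ := hS₀ q hq0 hp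
    refine hA.kg q O φ hp ?_ hO hφ hag
    have : (C : ℝ) < q := by linarith
    exact_mod_cast this
  refine ⟨S, fun q hq => ?_, fun X hX1 hX2 => ?_⟩
  · have h := (hS q hq).2.2.2
    rw [Real.exp_add]
    have h2e : (2 : ℝ) ≤ Real.exp 1 := by
      have := Real.add_one_le_exp (1 : ℝ)
      linarith
    have : 2 * y ≤ Real.exp 1 * Real.exp ((t : ℝ) ^ (k + 1)) :=
      mul_le_mul h2e hye hy.le (Real.exp_pos _).le
    linarith
  · have hX : 1 ≤ X := le_trans (Real.one_le_exp (by positivity)) hX1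
    have hX0 : 0 < X := by linarith
    have hz : (11 : ℝ) ≤ Real.exp ((t : ℝ) ^ 2) := by
      have h1 := Real.add_one_le_exp ((t : ℝ) ^ 2)
      have h2 : (t : ℝ) ≤ (t : ℝ) ^ 2 := le_self_pow₀ ht1 (by norm_num)
      linarith
    have hΛ : (t : ℝ) ^ (k + 1) ≤ ((t : ℝ) + 1) ^ (k + 1) :=
      pow_le_pow_left₀ ht0.le (by linarith) _
    have hlX : Real.log X ≤ ((t : ℝ) + 1) ^ (k + 1) := by
      rw [Real.log_le_iff_le_exp hX0]; exact hX2
    have hA1 := h5.2.1 X S hX0.le fun q hq => (hS q hq).1.ne_zero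
    have hA2 := hL X y (Real.exp ((t : ℝ) ^ 2)) (((t : ℝ) + 1) ^ (k + 1)) S hX (by linarith) hz hlX
      (hhi.trans hΛ) fun q hq =>
        ⟨(hS q hq).1, hA.ty q (hKg q hq), (hS q hq).2.2.1, (hS q hq).2.2.2⟩
    have hA3 := hSm X hX1
    refine le_trans (Det.cnt_le3 X (B₁ := fun d => d ≠ 0 ∧ ∃ q ∈ S, (q : ℤ) ∣ d)
      (B₂ := fun d => Squarefree d ∧ (∀ q ∈ S, ¬ (q : ℤ) ∣ d) ∧ ∃ α : L, SR d α ∧
        (∀ q ∈ S, fv q α = 0) ∧ ∃ l : ℕ, l.Prime ∧ Real.exp ((t : ℝ) ^ 2) < l ∧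
          ∃ 𝔭 ∈ ab L l, Odd (og 𝔭 α))
      (B₃ := fun d => Squarefree d ∧ om' d ≤ t ∧ ∃ α : L, SR d α ∧ ¬ IsSquare α ∧
        ∀ l : ℕ, l.Prime → Real.exp ((t : ℝ) ^ 2) < l → ∀ 𝔭 ∈ ab L l, Even (og 𝔭 α)) ?_) ?_
    · rintro d ⟨hF, hom, hD⟩
      by_cases hq : ∃ q ∈ S, (q : ℤ) ∣ d
      · exact Or.inl ⟨hF.ne_zero, hq⟩
      · right
        unfold Det at hD
        push Not at hD hq
        obtain ⟨α, hα, hsq, hall⟩ := hD
        by_cases hl : ∃ l : ℕ, l.Prime ∧ Real.exp ((t : ℝ) ^ 2) < l ∧ ∃ 𝔭 ∈ ab L l, Odd (og 𝔭 α)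
        · exact Or.inl ⟨hF, hq, α, hα, fun q hqS =>
            Det.z2 _ (hall q hqS (hS q hqS).1 (hKg q hqS) (hq q hqS)), hl⟩
        · refine Or.inr ⟨hF, hom, α, hα, hsq, fun l hl1 hl2 𝔭 h𝔭 => ?_⟩
          by_contra hne
          exact hl ⟨l, hl1, hl2, 𝔭, h𝔭, Int.not_even_iff_odd.1 hne⟩
    · have hB1 : 2 * X * ∑ q ∈ S, 1 / (q : ℝ) ≤ ε / 3 * X := by
        have h6 : 2 * (1 / (t : ℝ)) ≤ ε / 3 := by
          rw [div_le_iff₀ hε] at htε
          rw [mul_one_div, div_le_iff₀ ht0]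
          linarith
        calc 2 * X * ∑ q ∈ S, 1 / (q : ℝ) ≤ 2 * X * (1 / t) := by gcongr
          _ = 2 * (1 / (t : ℝ)) * X := by ring
          _ ≤ ε / 3 * X := by gcongr
      have hSc : (0 : ℝ) < S.card := by
        by_contra hneg
        have h0 : (S.card : ℝ) = 0 := le_antisymm (not_lt.1 hneg) (Nat.cast_nonneg _)
        rw [h0] at hcard
        linarith
      rw [Real.log_exp] at hA2
      have hE : Real.exp (-(c * Real.log y * (t : ℝ) ^ 2 / ((t : ℝ) + 1) ^ (k + 1))) ≤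
          Real.exp (-(c / 2 ^ (k + 1) * t)) :=
        Real.exp_le_exp.2 (neg_le_neg (Det.expo c t _ k hc ht1 hlo))
      have hΛ4 : (((t : ℝ) + 1) ^ (k + 1)) ^ 4 ≤ 2 ^ (4 * (k + 1)) * (t : ℝ) ^ (4 * (k + 1)) := by
        rw [← pow_mul, ← mul_pow, mul_comm (k + 1) 4]
        exact pow_le_pow_left₀ (by linarith) (by linarith) _
      have hB2 : C₁ * X * (((t : ℝ) + 1) ^ (k + 1)) ^ 4 * y *
          Real.exp (-(c * Real.log y * (t : ℝ) ^ 2 / ((t : ℝ) + 1) ^ (k + 1))) ≤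
          ε / 3 * X * S.card := by
        calc _ ≤ C₁ * X * (2 ^ (4 * (k + 1)) * (t : ℝ) ^ (4 * (k + 1))) *
              (2 * (t : ℝ) ^ (k + 1) * S.card) * Real.exp (-(c / 2 ^ (k + 1) * t)) := by gcongr
          _ = C₁ * 2 ^ (4 * (k + 1)) * 2 * (t : ℝ) ^ (5 * (k + 1)) *
              Real.exp (-(c / 2 ^ (k + 1) * t)) * X * S.card := by
              rw [show 5 * (k + 1) = 4 * (k + 1) + (k + 1) by ring, pow_add (t : ℝ) (4 * (k + 1))]
              ring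
          _ ≤ ε / 3 * X * S.card := by gcongr
      have hB2' := le_of_mul_le_mul_right (hA2.trans hB2) hSc
      linarith

end Pool.Agent.Lib.MP_d6ddbd_nt.GQ
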