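import Pool.Agent.Lib.MP_d6ddbd_nt.GQ.Stmt
import Pool.Agent.Lib.MP_d6ddbd_nt.GO.Large

/-!
Classes that ramify at a large prime.
-/

set_option autoImplicit false

open Finset NumberField
open Pool.Agent.Stark (Pr og)
open Pool.Agent.Lib.MP_d6ddbd_nt.K11 Pool.Agent.Lib.MP_d6ddbd_nt.KI
open Pool.Agent.Lib.MP_d6ddbd_nt.GG (sg bnd)
open scoped Classical

noncomputable section

namespace Pool.Agent.Lib.MP_d6ddbd_nt.GQ

namespace Large

variable {L : Type} [Field L] [NumberField L] {θ : L}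

/-- The class `α` of the twist by `d` is not detected by `S` and ramifies over `l`. -/
def Bp (S : Finset ℕ) (d : ℤ) (l : ℕ) (α : L) : Prop :=
  Squarefree d ∧ (∀ q ∈ S, ¬ (q : ℤ) ∣ d) ∧ SR d α ∧ (∀ q ∈ S, fv q α = 0) ∧
    ∃ 𝔭 ∈ ab L l, Odd (og 𝔭 α)

theorem gm (hθ : Cub θ) {S : Finset ℕ} {n : ℤ} {l : ℕ} {α : L} (hl : l.Prime)
    (h : Bp S (n * l) l α) : GG.Gm (11 * n.natAbs) l α := by
  have w := h.2.2.1
  have n0 : n ≠ 0 := left_ne_zero_of_mul h.1.ne_zero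
  obtain ⟨𝔭, a, b⟩ := h.2.2.2.2
  refine ⟨w.ne, fun 𝔮 h' => ?_, 𝔭, (mem_ab' hl.ne_zero).1 a, b⟩
  obtain ⟨-, p, c, e, f⟩ := (pr_thm L θ hθ).2.2.2.2.1 𝔮
  have k : 2 * (11 * n.natAbs) * l ≠ 0 := by simp [n0, hl.ne_zero]
  have k' : ¬ p ∣ 2 * (11 * n.natAbs) * l := fun hd => h' ((mem_ab' k).1 ((f _ k).2 hd))
  refine w.ev p c (fun e2 => k' (e2 ▸ (dvd_mul_right _ _).mul_right _))
    (fun e11 => k' (e11 ▸ ((dvd_mul_right _ _).mul_left _).mul_right _)) (fun hd => k' ?_) 𝔮 e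
  rw [mul_assoc, mul_assoc]
  refine (Dvd.dvd.mul_left ?_ 11).mul_left 2
  simpa [Int.natAbs_mul] using Int.natCast_dvd.1 hd

theorem nd {l m : ℕ} (hl : l.Prime) (h : 11 < l) (hd : l ∣ 2 * (11 * m)) : l ∣ m := by
  rcases hl.dvd_mul.1 hd with hd | hd
  · exact absurd (Nat.le_of_dvd two_pos hd) (by omega)
  · exact (hl.dvd_mul.1 hd).resolve_left fun e => absurd (Nat.le_of_dvd (by norm_num) e) (by omega)

end Large

open GO.Large (ex_pr bnd_le dyad)
open Large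

theorem large_thm (hL : GG.LsStmt) : LargeStmt := by
  intro L _ _ θ hθ
  obtain ⟨C, c, hC, hc, H⟩ := hL 3
  obtain ⟨𝔭, h𝔭⟩ := ex_pr hθ
  have hD₀ : 1 ≤ |(discr L : ℝ)| := by
    rw [← Int.cast_abs]
    exact_mod_cast Int.one_le_abs (discr_ne_zero L)
  set D : ℝ := 11 * |(discr L : ℝ)| with hD'
  have hD : 1 ≤ D := by linarith
  have hκ : 0 < Real.log D + 3 := by linarith [Real.log_nonneg hD]
  refine ⟨6 * C * (Real.log D + 3) ^ 3, c / (Real.log D + 3), by positivity, by positivity,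
    fun X y z Λ S hX hy hz h3 h4 hS => ?_⟩
  set E : ℝ := C * (Real.log D + 3) ^ 3 * Λ ^ 3 * y *
    Real.exp (-(c / (Real.log D + 3) * Real.log y * Real.log z / Λ)) with hE
  have a1 : 1 ≤ Λ := by
    refine le_trans ?_ h4
    rw [Real.le_log_iff_exp_le (by linarith)]
    linarith [Real.exp_one_lt_d9]
  have hE0 : 0 ≤ E := by positivity
  have hq : ∀ q ∈ S, 11 < q := fun q h => by exact_mod_cast hy.trans_lt (hS q h).2.2.1
  let J : ℝ → ℤ → Finset ℕ := fun Y n => (range (⌊X⌋₊ + 1)).filter fun l =>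
    l.Prime ∧ Y < l ∧ (l : ℝ) ≤ 2 * Y ∧ ∃ α : L, Bp S (n * l) l α
  have key : ∀ (Y : ℝ) (n : ℤ), z ≤ Y → |(n : ℝ)| ≤ X → ((J Y n).card : ℝ) * S.card ≤ E * Y := by
    intro Y n h1 hn
    rcases (J Y n).eq_empty_or_nonempty with e | ⟨l₀, hl₀⟩
    · rw [e, card_empty, Nat.cast_zero, zero_mul]
      exact mul_nonneg hE0 (by linarith)
    obtain ⟨b0, -, b1, -, α₀, b2⟩ := mem_filter.1 hl₀
    have b3 : (l₀ : ℝ) ≤ X := (Nat.le_floor_iff (by linarith)).1 (Nat.lt_succ_iff.1 (mem_range.1 b0))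
    choose! γ hγ using fun l (hl : l ∈ J Y n) => (mem_filter.1 hl).2.2.2.2
    have h := H L (D * X) y Y (11 * n.natAbs) (J Y n) S γ 𝔭 (fun _ => 1) hθ.rk.le (by nlinarith)
      (by rw [Nat.cast_mul, Nat.cast_natAbs, Int.cast_abs, Nat.cast_ofNat]; nlinarith)
      ⟨by simpa using left_ne_zero_of_mul b2.1.ne_zero, by linarith, by linarith,
        fun l hl => ?_, fun q h => ?_⟩ (by simp)
    · refine le_trans (le_of_eq ?_) (h.trans ((bnd_le hC hc hD hX hy hz h1 (by linarith) h3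
        h4).trans (le_of_eq (by rw [hE]; ring))))
      rw [← nsmul_eq_mul, ← sum_const]
      refine sum_congr rfl fun l hl => ?_
      rw [sum_congr rfl (g := fun _ => 1) fun q h => ?_]
      · simp
      · have w := (hγ l hl).2.2.1
        have w' := hq q h
        rw [← (h𝔭 q (hS q h).1 w' (hS q h).2.1).2 _ w.ne
          (w.ev q (hS q h).1 (by omega) (by omega) ((hγ l hl).2.1 q h)), (hγ l hl).2.2.2.1 q h]
        simp [sg]
    · obtain ⟨-, c1, c2, c3, -⟩ := mem_filter.1 hl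
      refine ⟨c1, c2, c3, fun hd => ?_, fun h => (hγ l hl).2.1 l h (dvd_mul_left _ _),
        gm hθ c1 (hγ l hl)⟩
      have c4 : 11 < l := by exact_mod_cast (show (11 : ℝ) < l by linarith)
      exact c1.not_isUnit (by simpa using Int.isUnit_iff_natAbs_eq.1 ((hγ l hl).1 (l : ℤ)
        (mul_dvd_mul_right (Int.natCast_dvd.2 (nd c1 c4 hd)) _)))
    · refine ⟨(hS q h).1, (hS q h).2.2.1, (hS q h).2.2.2, fun hd => ?_,
        (h𝔭 q (hS q h).1 (hq q h) (hS q h).2.1).1⟩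
      exact b2.2.1 q h ((Int.natCast_dvd.2 (nd (hS q h).1 (hq q h) hd)).mul_right _)
  let N : ℝ → Finset ℤ := fun Y => (Icc (-(⌊X / Y⌋₊ : ℤ)) ⌊X / Y⌋₊).erase 0
  have sub : ((Icc (-⌊X⌋) ⌊X⌋).filter fun d : ℤ => Squarefree d ∧ (∀ q ∈ S, ¬ (q : ℤ) ∣ d) ∧
      ∃ α : L, SR d α ∧ (∀ q ∈ S, fv q α = 0) ∧ ∃ l : ℕ, l.Prime ∧ z < l ∧
        ∃ 𝔭 ∈ ab L l, Odd (og 𝔭 α)) ⊆ (range (⌊2 * Real.log X⌋₊ + 1)).biUnion fun j =>
      (N (2 ^ j * z)).biUnion fun n => (J (2 ^ j * z) n).image fun l : ℕ => n * l := fun d hd => by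
    obtain ⟨d1, d2, d3, α, d4, d5, l, d6, d7, d8⟩ := mem_filter.1 hd
    have b : Bp S d l α := ⟨d2, d3, d4, d5, d8⟩
    obtain ⟨n, rfl⟩ : ∃ n : ℤ, d = n * l := by
      by_contra hn
      obtain ⟨𝔮, e1, e2⟩ := d8
      have c4 : 11 < l := by exact_mod_cast (show (11 : ℝ) < l by linarith)
      exact Int.not_even_iff_odd.2 e2 (d4.ev l d6 (by omega) (by omega)
        (fun ⟨n, e⟩ => hn ⟨n, by rw [e, mul_comm]⟩) 𝔮 e1)
    have n0 : n ≠ 0 := left_ne_zero_of_mul d2.ne_zero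
    have n1 : (1 : ℝ) ≤ |(n : ℝ)| := by exact_mod_cast Int.one_le_abs n0
    have n2 : |(n : ℝ)| * l ≤ X := by
      have := Int.le_floor.1 (abs_le.2 (mem_Icc.1 d1))
      push_cast at this
      rwa [abs_mul, Nat.abs_cast] at this
    have n3 : (l : ℝ) ≤ X := by nlinarith [(Nat.cast_nonneg l : (0 : ℝ) ≤ _)]
    obtain ⟨j, j1, j2, j3⟩ := dyad (by linarith) d7 n3
    have p : 0 < 2 ^ j * z := by positivity
    refine mem_biUnion.2 ⟨j, j1, mem_biUnion.2 ⟨n, mem_erase.2 ⟨n0, mem_Icc.2 (abs_le.1 ?_)⟩,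
      mem_image.2 ⟨l, mem_filter.2 ⟨mem_range.2 (Nat.lt_succ_of_le (Nat.le_floor n3)),
        d6, j2, j3, α, b⟩, rfl⟩⟩⟩
    rw [Int.natCast_floor_eq_floor (by positivity), Int.le_floor, le_div_iff₀ p]
    push_cast
    nlinarith
  have c1 : ∀ j : ℕ, ((((N (2 ^ j * z)).biUnion fun n => (J (2 ^ j * z) n).image
      fun l : ℕ => n * l).card : ℕ) : ℝ) * S.card ≤ 2 * X * E := fun j => by
    have p1 : z ≤ 2 ^ j * z := by nlinarith [one_le_pow₀ (one_le_two (α := ℝ)) (n := j)]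
    have p : 0 < 2 ^ j * z := by linarith
    have f1 := Nat.floor_le (a := X / (2 ^ j * z)) (by positivity)
    refine (mul_le_mul_of_nonneg_right (Nat.cast_le.2 (card_biUnion_le.trans
      (sum_le_sum fun n _ => card_image_le))) (by positivity)).trans ?_
    rw [Nat.cast_sum, sum_mul]
    refine (sum_le_card_nsmul _ _ (E * (2 ^ j * z)) fun n hn => key _ n p1 ?_).trans ?_
    · have : |(n : ℝ)| ≤ ⌊X / (2 ^ j * z)⌋₊ := by
        exact_mod_cast abs_le.2 (mem_Icc.1 (mem_erase.1 hn).2)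
      exact this.trans (f1.trans (div_le_self (by linarith) (by linarith)))
    · have : (N (2 ^ j * z)).card = 2 * ⌊X / (2 ^ j * z)⌋₊ := by
        rw [card_erase_of_mem (by simp), Int.card_Icc]
        omega
      rw [this, nsmul_eq_mul]
      push_cast
      rw [le_div_iff₀ p] at f1
      nlinarith
  have c2 : ((⌊2 * Real.log X⌋₊ + 1 : ℕ) : ℝ) ≤ 3 * Λ := by
    have := Nat.floor_le (a := 2 * Real.log X) (by linarith [Real.log_nonneg hX])
    push_cast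
    linarith
  refine (mul_le_mul_of_nonneg_right (Nat.cast_le.2 ((card_le_card (by convert sub)).trans
    card_biUnion_le)) (by positivity)).trans ?_
  rw [Nat.cast_sum, sum_mul]
  refine (sum_le_card_nsmul _ _ _ fun j _ => c1 j).trans ?_
  rw [card_range, nsmul_eq_mul]
  refine (mul_le_mul_of_nonneg_right c2 (by positivity)).trans (le_of_eq ?_)
  rw [hE]
  ring

end Pool.Agent.Lib.MP_d6ddbd_nt.GQ
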