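import Pool.Agent.Lib.MP_d6ddbd_nt.GQ.Stmt
import Pool.Agent.Lib.MP_d6ddbd_nt.GO.Loc1
import Pool.Agent.Lib.MP_d6ddbd_nt.GO.Loc2
import Pool.Agent.Lib.MP_d6ddbd_nt.GO.Alg0

/-!
Density one for all the twists of `X₀(11)`: the bounds in cells and in products of boxes.
-/

set_option autoImplicit false

open Finset
open Pool.Agent.Lib.MP_d6ddbd_nt.K11 Pool.Agent.Lib.MP_d6ddbd_nt.KI
open Pool.Agent.Lib.MP_d6ddbd_nt.GG (sg bnd Opn Chr)
open scoped Classical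

noncomputable section

namespace Pool.Agent.Lib.MP_d6ddbd_nt.GQ

open GO in
theorem loc1_thm (hL : GG.LsG) (h1 : CubeStmt) (h2 : PartStmt) (h3 : ColStmt) : Loc1Stmt := by
  intro n D C Kg Val J₀ hn hA
  obtain ⟨C', c', hC, hc, hL⟩ := hL D
  refine ⟨C', c', hC, hc, fun d₀ P Q y Λ V τ δ a hF hP hV hQ hN hS => ?_⟩
  obtain ⟨r, A, hr, hm, hT⟩ := hA.mat d₀ P Q hF hP hV
  obtain ⟨κ, k1, k2⟩ := h3 n (n + 1) r P _ A (by omega) hm
  have y0 : ∀ i, 0 < y i := fun i => by linarith [hN.y11 i]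
  have t0 := hN.t0
  have a0 := hN.a0
  have b0 : 0 ≤ τ * 2 ^ n * ∏ i, y i :=
    mul_nonneg (by positivity) (prod_nonneg fun i _ => (y0 i).le)
  have key : ∀ P' : Fin n → Finset ℕ, (∀ i, P' i ⊆ P i) →
      (∀ i, ∀ p ∈ P' i, ∀ p' ∈ P' i, κ i p = κ i p') → Bnd (fun p => ¬ Two (GO.dd d₀ p) n) P'
        (16 / 2 ^ n + 4 ^ ((n + 1) * Q.card) * a) (τ * 2 ^ n * ∏ i, y i) := by
    intro P' hs hk
    by_cases hb : ∃ i, ((P' i).card : ℝ) ≤ τ * y i
    · obtain ⟨i, hi⟩ := hb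
      exact Loc1.triv _ (fun i => (y0 i).le) t0.le (by positivity)
        (fun i => Loc1.card_le (y0 i).le fun p hp => hN.bx i p (hs i hp)) hi
    have hb' : ∀ i, τ * y i ≤ (P' i).card := fun i => (not_le.1 fun h => hb ⟨i, h⟩).le
    have pf : Fintype.piFinset P' ⊆ Fintype.piFinset P := Fintype.piFinset_subset _ _ hs
    have d0 : ∀ i : Fin n, 0 ≤ δ := fun i => by
      by_contra hd
      have := hN.dg i
      have := mul_pos t0 (y0 i)
      nlinarith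
    have h4 := h1 n r P' (fun p => ¬ Two (GO.dd d₀ p) n) A δ a hn
      ⟨fun p hp => hm.ev p (pf hp), fun p hp => hm.ker p (pf hp),
        fun J p hp p' hp' => hm.dv J p (pf hp) p' (pf hp')⟩
      (fun p hp p' hp' => k2 p (pf hp) p' (pf hp') fun i =>
        hk i _ (Fintype.mem_piFinset.1 hp i) _ (Fintype.mem_piFinset.1 hp' i))
      (fun i => (hN.dg i).trans (by rw [mul_assoc]; exact mul_le_mul_of_nonneg_left (hb' i) (d0 i)))
      a0 hN.cs fun x z hxz J i₀ i₁ m0 m1 h01 p hp p' hp' hD => by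
      obtain ⟨U, σ, θ, u1, u2, u3, u4, u5⟩ := hT x z hxz J i₀ i₁ m0 m1 h01 p (pf hp) p' (pf hp') hD
      have q1 := Fintype.mem_piFinset.1 (pf hp)
      have q2 := Fintype.mem_piFinset.1 (pf hp')
      have ne : ∀ {i j l m}, l ∈ P i → m ∈ P j → j ≠ i → l ≠ m := fun {i j l m} hl hm h e =>
        disjoint_left.1 (hP.dj j i h) hm (e ▸ hl)
      have nd : ∀ {i l}, l ∈ P i → (∀ i, i ≠ i₀ → l ≠ p i) → (∀ i, i ≠ i₀ → i ≠ i₁ → l ≠ p' i) →
          ¬ l ∣ 2 * md d₀ Q J i₀ i₁ p p' := fun {i l} hl => Loc1.nd (hP.ty i l hl)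
        (by exact_mod_cast (hN.y11 i).trans_lt (hN.bx i l hl).1) hQ (fun i => (hP.ty i _ (q1 i)).1)
        fun i => (hP.ty i _ (q2 i)).1
      have M0 : md d₀ Q J i₀ i₁ p p' ≠ 0 := fun h =>
        nd (q1 i₀) (fun i hi => ne (q1 i₀) (q1 i) hi) (fun i hi _ => ne (q1 i₀) (q2 i) hi)
          (by simp [h])
      refine ⟨fun l b => θ l (σ b), fun l hl e ho b hb b' hb' =>
        (u5 l (hs _ hl) e ho).2 b (hs _ hb) b' (hs _ hb'), ?_⟩
      have h5 := hL U _ (y i₀) (y i₁) ((P' i₁).filter fun l => l ≠ p i₁ ∧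
        Obs J.card z (cb (J.erase i₀) A p (Function.update p' i₁ l)) x) (P' i₀) θ σ (fun _ => 1)
        u1 u2 M0 (by linarith [hN.y11 i₀]) (by linarith [hN.y11 i₁]) u3 (fun l hl => by
          obtain ⟨l1, l2, l3⟩ := mem_filter.1 hl
          have l4 := hs _ l1
          refine ⟨(hP.ty _ l l4).1, (hN.bx _ l l4).1, (hN.bx _ l l4).2, nd l4 (fun i _ => ?_)
            fun i _ hi => ne l4 (q2 i) hi, fun h => ne l4 (hs _ h) h01 rfl, (u5 l l4 l2 l3).1⟩
          by_cases hi : i = i₁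
          · exact hi ▸ l2
          · exact ne l4 (q1 i) hi) fun b hb => by
          have l4 := hs _ hb
          exact ⟨(hP.ty _ b l4).1, (hN.bx _ b l4).1, (hN.bx _ b l4).2,
            nd l4 (fun i hi => ne l4 (q1 i) hi) fun i hi _ => ne l4 (q2 i) hi, (u4 b l4).1,
            (u4 b l4).2, by simp⟩
      simp only [one_mul] at h5
      refine h5.trans ((Loc1.est hC hc (by exact_mod_cast Nat.pos_of_ne_zero M0) (hN.y11 i₀)
        (hN.y11 i₁) hN.V0 (hN.lo i₀) (hN.lo i₁) ((Loc1.size hN.y11 h01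
          (fun i => (hN.bx i _ (q1 i)).2) fun i => (hN.bx i _ (q2 i)).2).trans hS)).trans ?_)
      have c0 := y0 i₀
      have c1 := y0 i₁
      have c2 := d0 i₀
      have c3 := hb' i₀
      have c4 := hb' i₁
      calc _ ≤ δ * τ ^ 2 * (y i₀ * y i₁) := mul_le_mul_of_nonneg_right hN.sv (by positivity)
        _ = δ * (τ * y i₀) * (τ * y i₁) := by ring
        _ ≤ _ := by gcongr
    refine h4.trans (add_le_add ?_ b0)
    gcongr
    norm_num
  have h6 := h2 n P _ _ κ (2 ^ Q.card ^ 2) _ _ b0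
    (fun i => le_trans (le_of_eq (by congr; exact Subsingleton.elim _ _)) ((k1 i).trans
      (Nat.pow_le_pow_right two_pos (Nat.pow_le_pow_left hr 2))))
    fun c => key _ (fun i p hp => by
      simp only [mem_filter] at hp
      exact hp.1) fun i p hp p' hp' => by
      simp only [mem_filter] at hp hp'
      exact hp.2.trans hp'.2.symm
  rwa [Nat.cast_pow, Nat.cast_ofNat] at h6

open GO GO.Loc2 in
theorem loc2_thm (h1 : Loc1Stmt) (h2 : PartStmt) : Loc2Stmt := by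
  intro n D C Kg Val J₀ hn hA
  obtain ⟨C', c', hC, hc, H⟩ := h1 n D C Kg Val J₀ hn hA
  refine ⟨C', c', hC, hc, ?_⟩
  intro L _ _ θ hθ d₀ P S y Λ V τ δ a Z ρ hd hT hj hN hρ hZ hS hΛ
  have hy : ∀ i, 0 ≤ y i := fun i => by have := hN.y11 i; linarith
  have hW : 0 ≤ τ * ∏ i, y i := mul_nonneg hN.t0.le (Finset.prod_nonneg fun i _ => hy i)
  have ha := hN.a0
  set W := τ * ∏ i, y i with hWd
  set β : ℝ := (2 ^ ρ ^ 2) ^ n * (2 ^ n * W) with hβ
  have hβ0 : 0 ≤ β := by positivity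
  have key := h2 n P (fun p => ¬ Two (GO.dd d₀ p) n ∧ Det L Kg S (GO.dd d₀ p)) (gens d₀ ∅ → ℤ)
    (fun _ => sy (gens d₀ ∅)) (4 ^ ρ) (16 / 2 ^ n + 4 ^ ((n + 1) * ρ) * a)
    (((4 ^ (2 * ρ) : ℕ) : ℝ) ^ n * β) (by positivity)
    (fun i => sy_card _ _ _ _ ((gens_card d₀ ∅).trans (by simp; omega))) ?_
  · refine bnd_mono key (fun p hp => hp) le_rfl ?_
    have e1 : (((4 ^ ρ : ℕ) : ℝ)) ^ n * (((4 ^ (2 * ρ) : ℕ) : ℝ) ^ n * β) =
        2 ^ (n * (ρ ^ 2 + 6 * ρ + 1)) * W := by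
      have e4 : (4 : ℝ) = 2 ^ 2 := by norm_num
      rw [hβ]
      push_cast
      rw [e4]
      simp only [← pow_mul, ← mul_assoc, ← pow_add]
      congr 2
      ring
    rw [e1]
    refine mul_le_mul_of_nonneg_right (pow_le_pow_right₀ (by norm_num) ?_) hW
    exact Nat.mul_le_mul_left _ (by nlinarith)
  intro c
  set P' : Fin n → Finset ℕ := fun i => @Finset.filter _ (fun p => sy (gens d₀ ∅) p = c i)
    (fun _ => Classical.propDecidable _) (P i) with hP'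
  have hs : ∀ i, P' i ⊆ P i := fun i p hp => (mem_fil hp).1
  have hcell : Cell d₀ ∅ P' := cell_of ∅ hT hj hs c fun i p hp => (mem_fil hp).2
  by_cases hex : ∃ p ∈ Fintype.piFinset P', Det L Kg S (GO.dd d₀ p)
  swap
  · exact bnd_none (fun p hp h => hex ⟨p, hp, h.2⟩) (by positivity) (by positivity)
  obtain ⟨p₀, hp₀, hdet⟩ := hex
  have hm := Fintype.mem_piFinset.1 hp₀
  have hfam : Squarefree (GO.dd d₀ p₀) := Alg0.sf hd hcell hm
  obtain ⟨Q, hQS, hQc, hQ, hV⟩ := hA.ex L θ hθ (GO.dd d₀ p₀) S hfam hdet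
  have hom := dd_om d₀ fun i => (hcell.ty i _ (hm i)).1
  have hQρ : Q.card ≤ ρ := by omega
  refine h2 n P' _ (gens d₀ Q → ℤ) (fun _ => sy (gens d₀ Q)) (4 ^ (2 * ρ)) _ β hβ0
    (fun i => sy_card _ _ _ _ ((gens_card d₀ Q).trans (by omega))) fun c₁ => ?_
  set P'' : Fin n → Finset ℕ := fun i => @Finset.filter _ (fun p => sy (gens d₀ Q) p = c₁ i)
    (fun _ => Classical.propDecidable _) (P' i) with hP''
  have hs' : ∀ i, P'' i ⊆ P' i := fun i p hp => (mem_fil hp).1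
  have hcell' : Cell d₀ Q P'' :=
    cell_of Q hcell.ty hcell.dj hs' c₁ fun i p hp => (mem_fil hp).2
  have hprod : ∏ q ∈ Q, (q : ℝ) ≤ Z ^ ρ := by
    calc ∏ q ∈ Q, (q : ℝ) ≤ ∏ _q ∈ Q, Z :=
          Finset.prod_le_prod (fun q _ => Nat.cast_nonneg q) fun q hq => hS q (hQS hq)
      _ = Z ^ Q.card := Finset.prod_const _
      _ ≤ Z ^ ρ := pow_le_pow_right₀ hZ hQρ
  have hb := H d₀ P'' Q y Λ V τ δ a hd hcell'
    (fun p hp => hA.inv d₀ P' Q hd hcell p₀ hp₀ p (Fintype.piFinset_subset _ _ hs' hp) hV)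
    (fun q hq => ⟨(hQ q hq).1, hA.ty q (hQ q hq).2⟩)
    (num_sub hN fun i => (hs' i).trans (hs i)) (by
      refine le_trans ?_ hΛ
      refine mul_le_mul_of_nonneg_right (mul_le_mul_of_nonneg_left hprod (by positivity)) ?_
      exact Finset.prod_nonneg fun i _ => pow_nonneg (by have := hy i; linarith) _)
  refine bnd_mono hb (fun p hp => hp.1) ?_ ?_
  · have : (4 : ℝ) ^ ((n + 1) * Q.card) ≤ 4 ^ ((n + 1) * ρ) :=
      pow_le_pow_right₀ (by norm_num) (Nat.mul_le_mul_left _ hQρ)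
    have := mul_le_mul_of_nonneg_right this ha
    linarith
  · have e : τ * 2 ^ n * ∏ i, y i = 2 ^ n * W := by rw [hWd]; ring
    rw [e, hβ]
    refine mul_le_mul_of_nonneg_right (pow_le_pow_left₀ (by positivity) ?_ _) (by positivity)
    exact pow_le_pow_right₀ (by norm_num) (Nat.pow_le_pow_left hQρ _)

end Pool.Agent.Lib.MP_d6ddbd_nt.GQ
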