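import Pool.Agent.Lib.MP_d6ddbd_nt.GQ.Stmt
import Pool.Agent.Lib.MP_d6ddbd_nt.GO.Small

/-!
Density one for all the twists of `X₀(11)`: classes that ramify only at small primes.
-/

set_option autoImplicit false

open Finset Filter Topology NumberField
open Pool.Agent.Stark (Pr og LSq)
open Pool.Agent.Lib.MP_d6ddbd_nt.K11 Pool.Agent.Lib.MP_d6ddbd_nt.KI
open Pool.Agent.Lib.MP_9177b7_ag.B (tsumP)
open scoped Classical

noncomputable section

namespace Pool.Agent.Lib.MP_d6ddbd_nt.GQ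

namespace Small

open GO GO.Small

variable {L : Type} [Field L] [NumberField L]

theorem not_dvd {d : ℤ} {T : Finset ℕ} {β γ : L} (hγ : γ ≠ 0) (hs : SR d (β * γ ^ 2))
    (he : Ev T (β * γ ^ 2)) {q : ℕ} (hq : q.Prime) (hN : Ns T β q) : ¬ (q : ℤ) ∣ d := by
  intro e
  obtain ⟨h1, n2, n11, 𝔭, h𝔭, hn, h2⟩ := hN
  rw [nsq, if_pos (lsq_mul hγ (hs.loc q hq n2 n11 e (he.2 q hq h1) 𝔭 h𝔭 hn))] at h2
  exact zero_ne_one h2

theorem un (T : Finset ℕ) (hT : ∀ l ∈ T, l.Prime) : (∀ l ∈ T ∪ {2, 11}, l.Prime) ∧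
    (T ∪ {2, 11}).card ≤ T.card + 2 ∧ 1 ≤ ∏ l ∈ T ∪ {2, 11}, (l : ℝ) ∧
    ∏ l ∈ T ∪ {2, 11}, (l : ℝ) ≤ 22 * ∏ l ∈ T, (l : ℝ) := by
  have h : ∀ l ∈ T ∪ {2, 11}, l.Prime := fun l hl => (mem_union.1 hl).elim (hT l) fun e => by
    rcases mem_insert.1 e with rfl | e
    · norm_num
    · rw [mem_singleton.1 e]; norm_num
  have one : ∀ s : Finset ℕ, s ⊆ T ∪ {2, 11} → 1 ≤ ∏ l ∈ s, (l : ℝ) := fun s hs =>
    calc (1 : ℝ) = ∏ _l ∈ s, (1 : ℝ) := by simp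
      _ ≤ _ := prod_le_prod (fun _ _ => zero_le_one) fun l hl => by
        exact_mod_cast (h l (hs hl)).one_le
  refine ⟨h, (card_union_le _ _).trans (by simp), one _ Subset.rfl, ?_⟩
  have e := prod_union_inter (s₁ := T) (s₂ := {2, 11}) (f := fun l : ℕ => (l : ℝ))
  have e2 : ∏ l ∈ ({2, 11} : Finset ℕ), (l : ℝ) = 22 := by
    rw [prod_pair (by norm_num)]
    norm_num
  have a := one _ (inter_subset_left.trans (subset_union_left (s₂ := {2, 11})) : T ∩ {2, 11} ⊆ _)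
  have b := one _ Subset.rfl
  rw [e2] at e
  nlinarith

theorem num' {t P : ℝ} {N : ℕ} (hN : 200 ≤ N) (ht : 2 ≤ t) (hP : 1 ≤ P)
    (hP' : P ≤ 22 * Real.exp (t ^ 3)) :
    Real.log (3 * P) ^ 2 ≤ Real.log (Real.exp (t ^ (N - 1))) ∧
      17 * Real.log t - 3 ≤ Real.log (Real.log (Real.exp (t ^ (N - 1)))) / 7 -
        3 * Real.log (Real.log (3 * P)) := by
  obtain ⟨M, rfl⟩ : ∃ M, N = M + 1 := ⟨N - 1, by omega⟩
  rw [Nat.add_sub_cancel, Real.log_exp]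
  have t1 : 1 ≤ t := by linarith
  have p0 : 0 < P := by linarith
  have m1 : t ^ 8 ≤ t ^ M := pow_le_pow_right₀ t1 (by omega)
  have e : (199 : ℝ) ≤ M := by exact_mod_cast (by omega : 199 ≤ M)
  clear hN
  have t3 : 8 ≤ t ^ 3 := by nlinarith [pow_le_pow_left₀ (by norm_num : (0 : ℝ) ≤ 2) ht 3]
  have b := Real.log_le_sub_one_of_pos (by norm_num : (0 : ℝ) < 2)
  have l1 : 1 ≤ Real.log (3 * P) := by
    rw [Real.le_log_iff_exp_le (by positivity)]
    have := Real.exp_one_lt_d9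
    linarith
  have l2 : Real.log (3 * P) ≤ 2 * t ^ 3 := by
    have a : Real.log (3 * P) ≤ Real.log (2 ^ 7 * Real.exp (t ^ 3)) :=
      Real.log_le_log (by positivity) (by linarith [Real.exp_pos (t ^ 3)])
    rw [Real.log_mul (x := 2 ^ 7) (by norm_num) (Real.exp_pos _).ne', Real.log_pow,
      Real.log_exp] at a
    push_cast at a
    linarith
  refine ⟨?_, ?_⟩
  · have a : Real.log (3 * P) ^ 2 ≤ (2 * t ^ 3) ^ 2 := pow_le_pow_left₀ (by linarith) l2 2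
    have b : 4 ≤ t ^ 2 := by nlinarith
    have c : t ^ 8 = t ^ 2 * (t ^ 3) ^ 2 := by ring
    nlinarith [sq_nonneg (t ^ 3)]
  · have a : Real.log (Real.log (3 * P)) ≤ Real.log (2 * t ^ 3) := Real.log_le_log (by linarith) l2
    rw [Real.log_mul (x := 2) (by norm_num) (by positivity), Real.log_pow] at a
    have c := Real.log_nonneg t1
    rw [Real.log_pow]
    push_cast at a
    nlinarith

end Small

open GO GO.Small GQ.Small in
/-- Classes that ramify only at small primes are rare. -/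
theorem small_thm (h1 : ClsStmt) (h2 : PsStmt) (h3 : ExStmt) : SmallStmt := by
  intro L _ _ θ hθ N ε hN hε
  obtain ⟨C₁, hC₁⟩ := h1 L θ hθ
  obtain ⟨C₂, x₀, hC₂⟩ := h2 L θ hθ
  obtain ⟨-, -, δ, C₃, δ0, -, c0, hC₃⟩ := h3
  obtain ⟨C₄, hC₄⟩ := Pool.Agent.Lib.MP_9177b7_ag.B.mert.2
  choose! s hs using hC₁
  set K : ℝ := 64 * C₁ * C₃ * Real.exp (3 + C₂) * Real.exp (8 * C₄) with hK
  have ev : ∀ a : ℝ, ∀ᶠ t : ℕ in atTop, a ≤ (t : ℝ) := fun a =>
    tendsto_natCast_atTop_atTop.eventually_ge_atTop a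
  filter_upwards [ev 2, ev (2 / δ), ev x₀, ev (K / ε)] with t t2 t3 t4 t5 X hX
  have t0 : (0 : ℝ) < t := by linarith
  have X0 : 0 < X := (Real.exp_pos _).trans_le hX
  have δt : 2 ≤ δ * t := by
    rw [div_le_iff₀ δ0] at t3
    linarith
  set z : ℝ := Real.exp ((t : ℝ) ^ 2) with hz
  set x : ℝ := Real.exp ((t : ℝ) ^ (N - 1)) with hx
  have z0 : 0 ≤ z := (Real.exp_pos _).le
  have x0 : 0 ≤ x := (Real.exp_pos _).le
  set A : Finset (Finset ℕ) := (pz z).powerset.filter fun T => T.card ≤ t with hA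
  have cov := cnt_cover X (fun d => Squarefree d ∧ GO.om' d ≤ t ∧ ∃ α : L, SR d α ∧ ¬ IsSquare α ∧
      ∀ l : ℕ, l.Prime → z < l → ∀ 𝔭 ∈ ab L l, Even (og 𝔭 α)) A
    (fun T => (s (T ∪ {2, 11})).filter fun β => Ev (T ∪ {2, 11}) β ∧ ¬ IsSquare β)
    (fun T β d => ((∏ l ∈ T, l : ℕ) : ℤ) ∣ d ∧
      ∀ q ∈ (pz x).filter (· ∈ {p | Ns (T ∪ {2, 11}) β p}), ¬ (q : ℤ) ∣ d) (by
    rintro d ⟨hd, ho, α, a1, a2, a3⟩
    set T := d.natAbs.primeFactors.filter fun l : ℕ => (l : ℝ) ≤ z with hT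
    have d0 : d.natAbs ≠ 0 := Int.natAbs_ne_zero.2 hd.ne_zero
    have hp : ∀ l ∈ T, l.Prime := fun l hl => Nat.prime_of_mem_primeFactors (mem_filter.1 hl).1
    have he : Ev (T ∪ {2, 11}) α := by
      refine ⟨a1.1, fun l hl hT' => ?_⟩
      by_cases e : (l : ℤ) ∣ d
      · refine a3 l hl (lt_of_not_ge fun f => hT' (mem_union_left _ (mem_filter.2 ⟨?_, f⟩)))
        exact Nat.mem_primeFactors.2 ⟨hl, Int.natCast_dvd.1 e, d0⟩
      · exact a1.ev l hl (fun f => hT' (by simp [f])) (fun f => hT' (by simp [f])) e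
    obtain ⟨β, hβ, γ, hγ, rfl⟩ := (hs _ (un T hp).1).2 α he
    refine ⟨T, mem_filter.2 ⟨mem_powerset.2 fun l hl =>
      (mem_pz z0).2 ⟨(mem_filter.1 hl).2, hp l hl⟩, (card_filter_le _ _).trans ho⟩, β,
      mem_filter.2 ⟨hβ, ev_of hγ he, fun f => a2 (f.mul (IsSquare.sq γ))⟩, ?_, fun q hq => ?_⟩
    · exact Int.natCast_dvd.2 ((prod_dvd_prod_of_subset _ _ _ (filter_subset _ _)).trans
        (Nat.prod_primeFactors_dvd _))
    · rw [mem_filter, mem_pz x0] at hq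
      exact Small.not_dvd hγ a1 he hq.1.2 hq.2)
  refine cov.trans ?_
  have one : ∀ T ∈ A, ∑ β ∈ (s (T ∪ {2, 11})).filter (fun β => Ev (T ∪ {2, 11}) β ∧ ¬ IsSquare β),
      cnt X (fun d => ((∏ l ∈ T, l : ℕ) : ℤ) ∣ d ∧
        ∀ q ∈ (pz x).filter (· ∈ {p | Ns (T ∪ {2, 11}) β p}), ¬ (q : ℤ) ∣ d) ≤
      (8 ^ T.card / ∏ l ∈ T, (l : ℝ)) * (64 * C₁ * C₃ * Real.exp (3 + C₂) * X / t ^ 17) := by
    intro T hT
    rw [hA, mem_filter, mem_powerset] at hT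
    have hp : ∀ l ∈ T, l.Prime := fun l hl => ((mem_pz z0).1 (hT.1 hl)).2
    obtain ⟨p1, p2⟩ := prod_le hT.1 hT.2
    obtain ⟨n1, n2, n3, -⟩ := num hN t2 δ0 δt p1 p2 hX
    obtain ⟨u1, u2, u3, u4⟩ := un T hp
    obtain ⟨n4, n5⟩ := num' hN t2 u3 (by linarith)
    have p0 : 0 < ∏ l ∈ T, (l : ℝ) := by linarith
    have each : ∀ β ∈ (s (T ∪ {2, 11})).filter (fun β => Ev (T ∪ {2, 11}) β ∧ ¬ IsSquare β),
        cnt X (fun d => ((∏ l ∈ T, l : ℕ) : ℤ) ∣ d ∧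
          ∀ q ∈ (pz x).filter (· ∈ {p | Ns (T ∪ {2, 11}) β p}), ¬ (q : ℤ) ∣ d) ≤
        C₃ * (X / ∏ l ∈ T, (l : ℝ)) * (Real.exp (3 + C₂) / t ^ 17) := by
      intro β hβ
      rw [mem_filter] at hβ
      refine (cnt_div X _ (prod_pos fun l hl => (hp l hl).pos) _).trans ?_
      rw [Nat.cast_prod]
      refine (hC₃ _ _ n1 fun q hq => ?_).trans ?_
      · rw [mem_filter, mem_pz x0] at hq
        exact ⟨hq.1.2, hq.1.1.trans n2⟩
      · refine mul_le_mul_of_nonneg_left ?_ (by positivity)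
        rw [sum_ind]
        have a := hC₂ _ β x u1 hβ.2.1 hβ.2.2 (t4.trans n3) n4
        have b : (t : ℝ) ^ 17 = Real.exp (17 * Real.log t) := by
          rw [show (17 : ℝ) = (17 : ℕ) by norm_num, Real.exp_nat_mul, Real.exp_log t0]
        rw [b, ← Real.exp_sub]
        exact Real.exp_le_exp.2 (by linarith)
    refine (sum_le_card_nsmul _ _ _ each).trans ?_
    rw [nsmul_eq_mul]
    have a : (((s (T ∪ {2, 11})).filter fun β => Ev (T ∪ {2, 11}) β ∧ ¬ IsSquare β).card : ℝ) ≤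
        C₁ * 8 ^ (T.card + 2) := by
      exact_mod_cast (card_filter_le _ _).trans ((hs _ u1).1.trans
        (Nat.mul_le_mul_left _ (Nat.pow_le_pow_right (by norm_num) u2)))
    refine (mul_le_mul_of_nonneg_right a (by positivity)).trans (le_of_eq ?_)
    rw [pow_add]
    field_simp
    norm_num
  refine (sum_le_sum one).trans ?_
  rw [← sum_mul]
  have z2 : 2 ≤ z := by
    have := Real.add_one_le_exp ((t : ℝ) ^ 2)
    nlinarith
  have a : ∑ T ∈ A, (8 : ℝ) ^ T.card / ∏ l ∈ T, (l : ℝ) ≤ Real.exp (8 * C₄) * t ^ 16 := by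
    refine (sum_le_sum_of_subset_of_nonneg (filter_subset _ _) fun T _ _ => by positivity).trans
      ((sum_pow z).trans ?_)
    have b : (t : ℝ) ^ 16 = Real.exp (16 * Real.log t) := by
      rw [show (16 : ℝ) = (16 : ℕ) by norm_num, Real.exp_nat_mul, Real.exp_log t0]
    have c := hC₄ z z2
    rw [hz, Real.log_exp, Real.log_pow, ← hz] at c
    rw [b, ← Real.exp_add]
    push_cast at c
    exact Real.exp_le_exp.2 (by linarith)
  refine (mul_le_mul_of_nonneg_right a (by positivity)).trans ?_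
  have b : Real.exp (8 * C₄) * t ^ 16 * (64 * C₁ * C₃ * Real.exp (3 + C₂) * X / t ^ 17) =
      K / t * X := by
    rw [hK]
    field_simp
  rw [b]
  refine mul_le_mul_of_nonneg_right ?_ X0.le
  rw [div_le_iff₀ hε] at t5
  rw [div_le_iff₀ t0]
  linarith

end Pool.Agent.Lib.MP_d6ddbd_nt.GQ
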