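import Pool.Agent.Lib.MP_d6ddbd_nt.GQ.Sr
import Pool.Agent.Lib.MP_d6ddbd_nt.GA.Dim
import Pool.Agent.Lib.MP_d6ddbd_nt.GA.Val

/-!
The dimension of the Selmer group of level one and the choice of the auxiliary primes.
-/

set_option autoImplicit false
set_option maxSynthPendingDepth 3

open NumberField
open Pool.Agent.Stark (Pr og SqCl cl cl_mul cl_eq_cl IsSel)
open Pool.Agent.Lib.MP_d6ddbd_nt.K11 Pool.Agent.Lib.MP_d6ddbd_nt.KI
open Pool.Agent.Lib.MP_d6ddbd_nt.GF (pst)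

noncomputable section

namespace Pool.Agent.Lib.MP_d6ddbd_nt.GQ

/-- A set of primes that controls the parities at all primes over `d`. -/
theorem ctl {L : Type} [Field L] [NumberField L] {θ : L} (hθ : Cub θ) {d : ℤ} (hd : d ≠ 0) :
    ∃ S : Finset (Pr L), S.card ≤ 2 * d.natAbs.primeFactors.card ∧
      ∀ α : L, α ≠ 0 → IsSquare (Algebra.norm ℚ α) →
        (∀ p : ℕ, p.Prime → p ≠ 2 → p ≠ 11 → ¬ (p : ℤ) ∣ d → ∀ 𝔭 ∈ ab L p, Even (og 𝔭 α)) →
        (∀ 𝔮 ∈ S, Even (og 𝔮 α)) → IsSel (ab L 22) α := by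
  classical
  have h : ∀ l : ℕ, ∃ S : Finset (Pr L), S.card ≤ 2 ∧ (l.Prime → l ≠ 2 → l ≠ 11 → ∀ α : L, α ≠ 0 →
      IsSquare (Algebra.norm ℚ α) → (∀ 𝔮 ∈ S, Even (og 𝔮 α)) →
      ∀ 𝔮 ∈ ab L l, Even (og 𝔮 α)) := fun l => by
    by_cases a : l.Prime ∧ l ≠ 2 ∧ l ≠ 11
    · obtain ⟨S, b, c⟩ := GA.Dim.two hθ a.1 a.2.1 a.2.2
      exact ⟨S, b, fun _ _ _ => c⟩
    · exact ⟨∅, by simp, fun b c e => absurd ⟨b, c, e⟩ a⟩
  choose S hS hS' using h
  refine ⟨d.natAbs.primeFactors.biUnion S, ?_, fun α a0 a1 w e => ⟨a0, fun 𝔭 hp => ?_⟩⟩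
  · refine Finset.card_biUnion_le.trans ?_
    rw [mul_comm]
    exact Finset.sum_le_card_nsmul _ _ _ fun l _ => hS l
  obtain ⟨-, l, hl, hpl, hl'⟩ := (pr_thm L θ hθ).2.2.2.2.1 𝔭
  have n : ¬ l ∣ 22 := fun e => hp ((hl' _ (by norm_num)).2 e)
  have n2 : l ≠ 2 := fun e => n (e ▸ by norm_num)
  have n11 : l ≠ 11 := fun e => n (e ▸ by norm_num)
  by_cases a : (l : ℤ) ∣ d
  · refine hS' l hl n2 n11 α a0 a1 (fun 𝔮 hq => e 𝔮 (Finset.mem_biUnion.2 ⟨l, ?_, hq⟩)) 𝔭 hpl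
    exact Nat.mem_primeFactors.2 ⟨hl, Int.natCast_dvd.1 a, Int.natAbs_ne_zero.2 hd⟩
  · exact w l hl n2 n11 a 𝔭 hpl

open GA.Dim in
theorem dim_thm : DimStmt := by
  classical
  obtain ⟨L, _, _, θ, hθ⟩ := Final.exists_cub
  have fin := Pool.Agent.Stark.finite_Sel (ab L 22)
  have fin' : Finite (Pool.Agent.Stark.Sel (ab L 22)) := Module.finite_of_finite (ZMod 2)
  refine ⟨Nat.card (Pool.Agent.Stark.Sel (ab L 22)), fun d r β hd hβ hind => ?_⟩
  obtain ⟨S, hS, hS'⟩ := ctl hθ hd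
  choose α a0 asq ak using fun a => (kA L θ hθ).1 _ (sel_rep hβ a).coc
  have aw := fun a => ev_of hθ (sel_rep hβ a) (a0 a) (asq a) (ak a)
  have inj : ∀ a a', cl (α a) = cl (α a') → a = a' := fun a a' e => by
    have k := Cm.kum_mul pr_thm hθ (a0 a) (a0 a') (sel_rep hβ a).coc (sel_rep hβ a').coc (ak a)
      (ak a')
    rw [← rep_add hβ] at k
    have s := sel_rep hβ (a + a')
    have c := ((kA L θ hθ).2 _ _ (mul_ne_zero (a0 a) (a0 a')) s.coc k).1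
      ((cl_eq_cl (a0 a) (a0 a')).1 e)
    have z := hind _ ((cb_cob_iff s.two).2 c)
    funext i
    have zi := congrFun z i
    have w : ∀ x y : ZMod 2, x + y = 0 → x = y := by decide
    exact w _ _ zi
  let f : (Fin r → ZMod 2) → S → ZMod 2 := fun a 𝔮 => (og 𝔮.1 (α a) : ZMod 2)
  have c1 := Finset.card_le_mul_card_image_of_maps_to (s := Finset.univ) (t := Finset.univ) (f := f)
    (fun _ _ => Finset.mem_univ _) (Nat.card (Pool.Agent.Stark.Sel (ab L 22))) fun b _ => by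
      rcases (Finset.univ.filter fun a => f a = b).eq_empty_or_nonempty with e | ⟨a₀, h₀⟩
      · simp [e]
      have om : ∀ a 𝔮, og 𝔮 (α a * α a₀) = og 𝔮 (α a) + og 𝔮 (α a₀) := fun a 𝔮 =>
        Pool.Agent.Stark.ord_mul (a0 a) (a0 a₀)
      have m : ∀ a : (Finset.univ.filter fun a => f a = b),
          cl (α a * α a₀) ∈ Pool.Agent.Stark.Sel (ab L 22) := by
        rintro ⟨a, h⟩
        refine ⟨_, hS' _ (mul_ne_zero (a0 a) (a0 a₀)) (by rw [map_mul]; exact (asq a).mul (asq a₀))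
          (fun p b1 b2 b3 b4 𝔭 b5 => ?_) fun 𝔮 hq => ?_, rfl⟩
        · rw [om]
          exact (aw a p b1 b2 b3 b4 𝔭 b5).add (aw a₀ p b1 b2 b3 b4 𝔭 b5)
        have e := congrFun ((Finset.mem_filter.1 h).2.trans (Finset.mem_filter.1 h₀).2.symm) ⟨𝔮, hq⟩
        rw [om, ← ZMod.intCast_eq_zero_iff_even, Int.cast_add]
        have w : ∀ x y : ZMod 2, x = y → x + y = 0 := by decide
        exact w _ _ e
      rw [← Nat.card_eq_finsetCard]
      refine Nat.card_le_card_of_injective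
        (fun a => (⟨_, m a⟩ : Pool.Agent.Stark.Sel (ab L 22))) fun a a' e => ?_
      have e' := congrArg Subtype.val e
      simp only [cl_mul (a0 _) (a0 _), add_left_inj] at e'
      exact Subtype.ext (inj _ _ e')
  simp only [Finset.card_univ, Fintype.card_fun, ZMod.card, Fintype.card_fin,
    Fintype.card_coe] at c1
  have c2 : 2 ^ r ≤ 2 ^ (Nat.card (Pool.Agent.Stark.Sel (ab L 22)) + S.card) := by
    rw [pow_add]
    exact c1.trans (Nat.mul_le_mul_right _ Nat.lt_two_pow_self.le)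
  have := (Nat.pow_le_pow_iff_right (by norm_num)).1 c2
  omega

theorem val_thm (hL : GA.LdStmt) (hG : GwStmt) (hU : GA.DualStmt) : ValStmt := by
  obtain ⟨C, hC⟩ := dim_thm
  refine ⟨C, fun L _ _ θ hθ K d S hK hd h => ?_⟩
  classical
  obtain ⟨r, Q, a, b, c, e⟩ := hU K d (S.filter fun q => GA.Kg K q ∧ ¬ (q : ℤ) ∣ d) _ hK
    (fun r β => hC d r β hd.ne_zero) (fun q hq => (Finset.mem_filter.1 hq).2.1) fun x hx hc => by
      have hk := kumAll L θ hθ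
      obtain ⟨α, a0, a1, a2⟩ := hk.1 x hx.coc
      obtain ⟨q, hq, -, g, n, f⟩ := h α (sr_thm L θ hθ d α x hd hx a0 a1 a2) fun s =>
        hc ((cb_cob_iff hx.two).2 ((hk.2 α x a0 hx.coc a2).1 s))
      refine ⟨q, Finset.mem_filter.2 ⟨hq, g, n⟩, fun e => ?_⟩
      have o := (hL K q hK g).pl
      have := (((link1All L θ hθ).2.2 α x a0 a1 hx.coc a2).2 q _ _ _ _ o.pr o.n2 o.n11
        o.ty o.ov o.ine o.fr (rt_sq _) (rt_neg o.mv)).2.2 e
      exact zero_ne_one (this.symm.trans f)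
  exact ⟨r, Q, a, fun i => (Finset.mem_filter.1 (b i)).1, hd, (hG d hd).1, (hG d hd).2,
    fun i => (Finset.mem_filter.1 (b i)).2.1, fun i => (Finset.mem_filter.1 (b i)).2.2, c, e⟩

end Pool.Agent.Lib.MP_d6ddbd_nt.GQ
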