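import Pool.Agent.Lib.MP_d6ddbd_nt.GQ.Alg
import Pool.Agent.Lib.MP_d6ddbd_nt.GQ.Den
import Pool.Agent.Lib.MP_d6ddbd_nt.GQ.Det
import Pool.Agent.Lib.MP_d6ddbd_nt.GQ.Large
import Pool.Agent.Lib.MP_d6ddbd_nt.GQ.Loc
import Pool.Agent.Lib.MP_d6ddbd_nt.GQ.Small
import Pool.Agent.Lib.MP_d6ddbd_nt.GQ.Val
import Pool.Agent.Lib.MP_d6ddbd_nt.GO.All

/-!
Density one for all the quadratic twists of `X₀(11)`: assembly.
-/

set_option autoImplicit false

open Filter Topology
open Pool.Agent.Lib.MP_d6ddbd_nt.K11 Pool.Agent.Lib.MP_d6ddbd_nt.KI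

namespace Pool.Agent.Lib.MP_d6ddbd_nt.GQ

theorem alg_thm (hG : GwStmt) : AlgStmt := by
  obtain ⟨h1, h2, -, h4, h5, h6, h7⟩ := GO.algI
  exact alg_of h1 h2 (val_thm GA.ld_thm hG (GA.dual_thm GA.ld_thm (GA.lq_thm GA.un_thm))) h4
    (fun K r Q d hK hv => (h5 K r Q d hK hv).2) h6 (GO.cubeT h7)

open GO in
theorem detAll : DetStmt :=
  det_thm fd_thm (pool_thm rng_thm) (large_thm GG.lsAll)
    (small_thm cls_thm (ps_thm (qd_thm GG.discAll) rng_thm) ex_thm) ex_thm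

open GO in
/-- The bound holds for almost all squarefree integers. -/
theorem one_of (hG : GwStmt) : OneStmt :=
  one_thm (den_thm (alg_thm hG) (loc2_thm (loc1_thm GG.lsgAll
    (cube_thm ker_thm cs_thm (sgn_thm sga_thm)) part_thm col_thm) part_thm) sum_thm ex_thm fd_thm
    rng_thm detAll)

/-- A property that follows from the bound fails for few squarefree integers. -/
theorem den_of (h : OneStmt) {B : ℤ → Prop} (hB : ∀ d, Squarefree d → Bd d → B d) :
    Tendsto (fun X : ℕ => (({d : ℤ | |d| ≤ X ∧ Squarefree d ∧ ¬ B d}.ncard : ℕ) : ℝ) / X) atTop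
      (𝓝 0) := by
  refine squeeze_zero (fun X => by positivity) (fun X => ?_)
    (h.comp tendsto_natCast_atTop_atTop)
  refine div_le_div_of_nonneg_right ?_ (Nat.cast_nonneg X)
  rw [GO.cnt, Nat.cast_le, ← Set.ncard_coe_finset]
  refine Set.ncard_le_ncard (fun d ⟨a, b, f⟩ => ?_) (Finset.finite_toSet _)
  simp only [Finset.mem_coe, Finset.mem_filter, Finset.mem_Icc, Int.floor_natCast]
  exact ⟨abs_le.1 a, b, fun g => f (hB d b g)⟩

end Pool.Agent.Lib.MP_d6ddbd_nt.GQ
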