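import Pool.Agent.Lib.MP_d6ddbd_nt.GQ.Stmt
import Pool.Agent.Lib.MP_d6ddbd_nt.KI.Bas
import Pool.Agent.Lib.MP_d6ddbd_nt.KI.Cm
import Pool.Agent.Lib.MP_d6ddbd_nt.KI.Dk
import Pool.Agent.Lib.MP_d6ddbd_nt.K11.AllX

/-!
From Selmer cocycles to classes of the cubic field, away from `2` and `11`.
-/

set_option autoImplicit false

open NumberField
open Pool.Agent.Stark (Pr og LSq)
open Pool.Agent.Lib.MP_d6ddbd_nt.K11 Pool.Agent.Lib.MP_d6ddbd_nt.KI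

noncomputable section

namespace Pool.Agent.Lib.MP_d6ddbd_nt.GQ

theorem ev_of {L : Type} [Field L] [NumberField L] {θ : L} (hθ : Cub θ) {d : ℤ} {α : L}
    {x : G → Pt} (hx : Sel d 1 ∅ x) (a0 : α ≠ 0) (a1 : IsSquare (Algebra.norm ℚ α))
    (a2 : Kum θ α x) (p : ℕ) (hp : p.Prime) (h2 : p ≠ 2) (h11 : p ≠ 11) (hn : ¬ (p : ℤ) ∣ d) :
    ∀ 𝔭 ∈ ab L p, Even (og 𝔭 α) :=
  ((link1All L θ hθ).2.2 α x a0 a1 hx.coc a2).1 p hp h2 h11 fun O hO =>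
    (hx.kl p O hp (by simp) hO).unr hx.two fun _ hσ => cq_ine hp h2 hO hn hσ

theorem sr_thm : SrStmt := by
  intro L _ _ θ hθ d α x hd hx a0 a1 a2
  refine ⟨a0, ev_of hθ hx a0 a1 a2, fun q hq h2 h11 hqd he 𝔭 hp hn => ?_⟩
  have emb := (pr_thm L θ hθ).2.2.2.2.2.2.2.1
  obtain ⟨e₁, -, -, r1, -⟩ := CK.roots rAll
  obtain ⟨e, -⟩ := emb e₁ r1
  obtain ⟨O, hb⟩ := vAll.1.2.1 L e 𝔭
  have hO : Ov O q := Link1.ov vAll hb hq.ne_zero hp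
  obtain ⟨σ, hσ, hσs⟩ := ex_ine hq hO hd hqd
  obtain ⟨φ, hφ⟩ := ex_frob hq hO
  have z : x σ = 0 := Cm.wl_ext (hx.two σ) (nsmul_zero 2) fun y hy => by
    obtain ⟨f, rfl⟩ := emb y hy
    obtain ⟨𝔮, m, hf⟩ := vAll.1.2.2.1 L f q O hq hO
    have m' := (mem_ab' hq.ne_zero).2 m
    obtain ⟨t, ht⟩ := CK.exists_sqrt (f α)
    obtain ⟨b1, b2⟩ := ((link1All L θ hθ).1 f O 𝔮 q α t hq h2 h11 m' hf a0 ht).1 σ (rt d) d hσ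
      (rt_sq d) hd hqd (rt_neg hσs)
    rw [(a2 f t σ ht b1).1 (b2.2 (he 𝔮 m')), CK.wl_eq_zero.2 (Or.inl rfl)]
  obtain ⟨S, hS, h⟩ := hx.kl q O hq (by simp) hO
  obtain ⟨T, -, a, b⟩ := Dk.four rAll hq h2 h11 hO hσ hφ hS (hx.two σ) (hx.two φ)
    (by rw [h σ (wl_ine q hσ), Dk.tw_of_ne hσs]) (h φ (wl_frob hφ))
  have t2 : 2 • T = 0 := by rwa [z, eq_comm, neg_eq_zero] at a
  obtain ⟨s, hs⟩ := CK.exists_sqrt (e α)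
  obtain ⟨b1, b2⟩ := ((link1All L θ hθ).1 e O 𝔭 q α s hq h2 h11 hp hb a0 hs).2 φ (hn ▸ hφ)
    (he 𝔭 hp)
  refine b2.1 ((a2 e s φ hs b1).2 ?_)
  obtain ⟨-, -, -, -, -, w1, w2, -⟩ := r1_thm
  have t3 := sm_tor φ t2
  have t4 : -T = T := by rw [neg_eq_iff_add_eq_zero, ← two_nsmul, t2]
  have w3 := w2 (e θ) φ T
  rw [b1] at w3
  rw [b, CK.eta_two (cq_or d φ) t3, sub_eq_add_neg, t4, w1 _ _ _ (Link1.fce hθ e) t3 t2, w3,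
    CharTwo.add_self_eq_zero]

end Pool.Agent.Lib.MP_d6ddbd_nt.GQ
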