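import Pool.Agent.Lib.MP_d6ddbd_nt.GO.Stmt
import Pool.Agent.Lib.MP_d6ddbd_nt.GA.Defs

/-!
Density one for all the quadratic twists of `X₀(11)`: definitions and statements.
-/

set_option autoImplicit false

open Finset Filter Topology NumberField
open Pool.Agent.Stark (Pr og LSq)
open Pool.Agent.Lib.MP_d6ddbd_nt.K11 Pool.Agent.Lib.MP_d6ddbd_nt.KI
open Pool.Agent.Lib.MP_d6ddbd_nt.GO (Mat Ind Dis Fm Cell T3 md Tp Num Bnd om' cnt)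
open scoped Classical

noncomputable section

namespace Pool.Agent.Lib.MP_d6ddbd_nt.GQ

/-- Classes with the Selmer conditions away from `2` and `11`. -/
structure SR {L : Type} [Field L] [NumberField L] (d : ℤ) (α : L) : Prop where
  ne : α ≠ 0
  ev : ∀ p : ℕ, p.Prime → p ≠ 2 → p ≠ 11 → ¬ (p : ℤ) ∣ d → ∀ 𝔭 ∈ ab L p, Even (og 𝔭 α)
  loc : ∀ q : ℕ, q.Prime → q ≠ 2 → q ≠ 11 → (q : ℤ) ∣ d → (∀ 𝔮 ∈ ab L q, Even (og 𝔮 α)) →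
    ∀ 𝔭 ∈ ab L q, nm 𝔭 = q → LSq 𝔭 α

/-- Every class is detected by a prime of the pool. -/
def Det (L : Type) [Field L] [NumberField L] (Kg : ℕ → Prop) (S : Finset ℕ) (d : ℤ) : Prop :=
  ∀ α : L, SR d α → ¬ IsSquare α → ∃ q ∈ S, q.Prime ∧ Kg q ∧ ¬ (q : ℤ) ∣ d ∧ fv q α = 1

/-- What the counting needs from the algebra, with `K = n + 1`. -/
structure Alg (n D C : ℕ) (Kg : ℕ → Prop) (Val : ℤ → Finset ℕ → Prop) (J₀ : Finset ℂ) : Prop where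
  al : Al J₀
  kg : ∀ (q : ℕ) O (φ : G), q.Prime → C < q → Ov O q → Frob O q φ → Ag J₀ φ cj → Kg q
  ty : ∀ q, Kg q → nr q = 1
  ex : ∀ (L : Type) [Field L] [NumberField L] (θ : L), Cub θ → ∀ (d : ℤ) (S : Finset ℕ),
    Squarefree d → Det L Kg S d →
    ∃ Q ⊆ S, Q.card ≤ 2 * d.natAbs.primeFactors.card + C ∧ (∀ q ∈ Q, q.Prime ∧ Kg q) ∧ Val d Q
  inv : ∀ (d₀ : ℤ) (P : Fin n → Finset ℕ) (Q : Finset ℕ), Squarefree d₀ → Cell d₀ ∅ P →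
    ∀ p ∈ Fintype.piFinset P, ∀ p' ∈ Fintype.piFinset P, Val (GO.dd d₀ p) Q → Val (GO.dd d₀ p') Q
  mat : ∀ (d₀ : ℤ) (P : Fin n → Finset ℕ) (Q : Finset ℕ), Squarefree d₀ → Cell d₀ Q P →
    (∀ p ∈ Fintype.piFinset P, Val (GO.dd d₀ p) Q) →
    ∃ (r : ℕ) (A : (Fin n → ℕ) → Mat (n + 1) r), r ≤ Q.card ∧
      Fm P (fun p => ¬ Two (GO.dd d₀ p) n) A ∧
      ∀ x y, Ind x y → ∀ (J : Finset (Fin n)) i₀ i₁, i₀ ∈ J → i₁ ∈ J → i₀ ≠ i₁ →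
        ∀ p ∈ Fintype.piFinset P, ∀ p' ∈ Fintype.piFinset P, Dis ((J.erase i₀).erase i₁) p p' →
          Tp D (md d₀ Q J i₀ i₁ p p') P A x y J i₀ i₁ p p'

/-- The algebraic half. -/
def AlgStmt : Prop := ∀ n : ℕ, 2 ≤ n → ∃ D C Kg Val J₀, Alg n D C Kg Val J₀

/-- The two inputs about the Selmer groups of level one. -/
def GwStmt : Prop := ∀ d : ℤ, Squarefree d → GA.Gw d ∧ GA.Sj d

/-- Selmer cocycles give classes. -/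
def SrStmt : Prop := ∀ (L : Type) [Field L] [NumberField L] (θ : L), Cub θ →
  ∀ (d : ℤ) (α : L) (x : G → Pt), Squarefree d → Sel d 1 ∅ x → α ≠ 0 →
    IsSquare (Algebra.norm ℚ α) → Kum θ α x → SR d α

/-- The dimension of the Selmer group of level one. -/
def DimStmt : Prop := ∃ C : ℕ, ∀ (d : ℤ) (r : ℕ) (β : Fin r → G → Pt), d ≠ 0 →
  (∀ i, Sel d 1 ∅ (β i)) → (∀ a, Cb d (rep β a) → a = 0) →
  r ≤ 2 * d.natAbs.primeFactors.card + C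

/-- The choice of the auxiliary primes. -/
def ValStmt : Prop := ∃ C : ℕ, ∀ (L : Type) [Field L] [NumberField L] (θ : L), Cub θ →
  ∀ (K : ℕ) (d : ℤ) (S : Finset ℕ), K ≠ 0 → Squarefree d → Det L (GA.Kg K) S d →
    ∃ (r : ℕ) (Q : Fin r → ℕ), r ≤ 2 * d.natAbs.primeFactors.card + C ∧ (∀ i, Q i ∈ S) ∧
      GA.Val K Q d

/-- The bound in a cell with a valid set of primes. -/
def Loc1Stmt : Prop := ∀ n D C Kg Val J₀, 2 ≤ n → Alg n D C Kg Val J₀ →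
  ∃ C' c' : ℝ, 0 < C' ∧ 0 < c' ∧ ∀ (d₀ : ℤ) (P : Fin n → Finset ℕ) (Q : Finset ℕ) (y : Fin n → ℝ)
    (Λ V τ δ a : ℝ), Squarefree d₀ → Cell d₀ Q P → (∀ p ∈ Fintype.piFinset P, Val (GO.dd d₀ p) Q) →
    (∀ q ∈ Q, q.Prime ∧ nr q = 1) → Num C' c' P y Λ V τ δ a →
    22 * |(d₀ : ℝ)| * (∏ q ∈ Q, (q : ℝ)) * ∏ i, (2 * y i) ^ 3 ≤ Real.exp Λ →
    Bnd (fun p => ¬ Two (GO.dd d₀ p) n) P (16 / 2 ^ n + 4 ^ ((n + 1) * Q.card) * a)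
      ((2 ^ Q.card ^ 2) ^ n * (τ * 2 ^ n * ∏ i, y i))

/-- The bound in a product of boxes. -/
def Loc2Stmt : Prop := ∀ n D C Kg Val J₀, 2 ≤ n → Alg n D C Kg Val J₀ →
  ∃ C' c' : ℝ, 0 < C' ∧ 0 < c' ∧ ∀ (L : Type) [Field L] [NumberField L] (θ : L), Cub θ →
    ∀ (d₀ : ℤ) (P : Fin n → Finset ℕ) (S : Finset ℕ) (y : Fin n → ℝ) (Λ V τ δ a Z : ℝ) (ρ : ℕ),
    Squarefree d₀ → (∀ i, ∀ p ∈ P i, T3 d₀ p) → (∀ i j, i ≠ j → Disjoint (P i) (P j)) →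
    Num C' c' P y Λ V τ δ a → 2 * (om' d₀ + n) + C + 3 ≤ ρ → 1 ≤ Z → (∀ q ∈ S, (q : ℝ) ≤ Z) →
    22 * |(d₀ : ℝ)| * Z ^ ρ * ∏ i, (2 * y i) ^ 3 ≤ Real.exp Λ →
    Bnd (fun p => ¬ Two (GO.dd d₀ p) n ∧ Det L Kg S (GO.dd d₀ p)) P (16 / 2 ^ n + 4 ^ ((n + 1) * ρ) * a)
      (2 ^ (n * (ρ + 3) ^ 2) * (τ * ∏ i, y i))

/-- Classes that ramify at a large prime. -/
def LargeStmt : Prop := ∀ (L : Type) [Field L] [NumberField L] (θ : L), Cub θ →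
  ∃ C c : ℝ, 0 < C ∧ 0 < c ∧ ∀ (X y z Λ : ℝ) (S : Finset ℕ), 1 ≤ X → 11 ≤ y → 11 ≤ z →
    Real.log X ≤ Λ → Real.log y ≤ Λ → (∀ q ∈ S, q.Prime ∧ nr q = 1 ∧ y < q ∧ (q : ℝ) ≤ 2 * y) →
    cnt X (fun d => Squarefree d ∧ (∀ q ∈ S, ¬ (q : ℤ) ∣ d) ∧ ∃ α : L, SR d α ∧
      (∀ q ∈ S, fv q α = 0) ∧ ∃ l : ℕ, l.Prime ∧ z < l ∧ ∃ 𝔭 ∈ ab L l, Odd (og 𝔭 α)) * S.card ≤
      C * X * Λ ^ 4 * y * Real.exp (-(c * Real.log y * Real.log z / Λ))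

/-- Classes that ramify only at small primes. -/
def SmallStmt : Prop := ∀ (L : Type) [Field L] [NumberField L] (θ : L), Cub θ →
  ∀ (N : ℕ) (ε : ℝ), 200 ≤ N → 0 < ε → ∀ᶠ t : ℕ in atTop, ∀ X : ℝ, Real.exp (t ^ N) ≤ X →
    cnt X (fun d => Squarefree d ∧ om' d ≤ t ∧ ∃ α : L, SR d α ∧ ¬ IsSquare α ∧
      ∀ l : ℕ, l.Prime → Real.exp (t ^ 2) < l → ∀ 𝔭 ∈ ab L l, Even (og 𝔭 α)) ≤ ε * X

/-- Almost all twists are detected by the pool. -/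
def DetStmt : Prop := ∀ n D C Kg Val J₀, Alg n D C Kg Val J₀ →
  ∀ (L : Type) [Field L] [NumberField L] (θ : L), Cub θ → ∀ (N : ℕ) (ε : ℝ), 200 ≤ N → 0 < ε →
    ∀ᶠ t : ℕ in atTop, ∃ S : Finset ℕ, (∀ q ∈ S, (q : ℝ) ≤ Real.exp (t ^ N + 1)) ∧
      ∀ X : ℝ, Real.exp (t ^ N) ≤ X → X ≤ Real.exp ((t + 1) ^ N) →
        cnt X (fun d => Squarefree d ∧ om' d ≤ t ∧ ¬ Det L Kg S d) ≤ ε * X

/-- The density of the twists with a large divisible part. -/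
def DenStmt : Prop := ∀ (n : ℕ) (ε : ℝ), 2 ≤ n → 0 < ε →
  ∀ᶠ X : ℝ in atTop, cnt X (fun d => Squarefree d ∧ ¬ Two d n) ≤ (96 / 2 ^ n + ε) * X

/-- Density one. -/
def OneStmt : Prop :=
  Tendsto (fun X : ℝ => cnt X (fun d => Squarefree d ∧ ¬ Bd d) / X) atTop (𝓝 0)

end Pool.Agent.Lib.MP_d6ddbd_nt.GQ
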